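import Pool.Agent.Zk62.LS.Random

/-! Slow variation, and the irrationality of `log 2 / log 3`. -/

set_option autoImplicit false

open MeasureTheory Filter Topology

namespace Zk62.LS

variable {Ω : Type*} [MeasurableSpace Ω] {P : Measure Ω} [IsProbabilityMeasure P]
  {X : ℕ → Ω → E} {h : ℝ} (H : Scaling P X h)

include H

/-- The law at time `n` is a slowly varying function of `n`. -/
theorem slow (F : BoundedContinuousFunction E ℝ) {ε : ℝ} (hε : 0 < ε) :
    ∃ η : ℝ, 0 < η ∧ ∃ N : ℕ, ∀ n m : ℕ, N ≤ m → m ≤ n → (n : ℝ) ≤ (1 + η) * m →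
      |(∫ f, F f ∂(lw P H.meas n : Measure E)) - ∫ f, F f ∂(lw P H.meas m : Measure E)| < ε := by
  by_contra hcon
  push Not at hcon
  have h1 : ∀ k : ℕ, ∃ p : ℕ × ℕ, k + 1 ≤ p.2 ∧ p.2 ≤ p.1 ∧
      (p.1 : ℝ) ≤ (1 + 1 / ((k : ℝ) + 1)) * p.2 ∧
      ε ≤ |(∫ f, F f ∂(lw P H.meas p.1 : Measure E)) -
        ∫ f, F f ∂(lw P H.meas p.2 : Measure E)| := by
    intro k
    obtain ⟨n, m, h2, h3, h4, h5⟩ := hcon (1 / ((k : ℝ) + 1)) (by positivity) (k + 1)
    exact ⟨(n, m), h2, h3, h4, h5⟩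
  choose p hp1 hp2 hp3 hp4 using h1
  obtain ⟨ψ, hψ, μ, hμ⟩ := subseq H (fun k => (p k).1)
  have hm : Tendsto (fun k => (p k).2) atTop atTop :=
    tendsto_atTop_mono (fun k => (Nat.le_succ k).trans (hp1 k)) tendsto_id
  have hn : Tendsto (fun k => (p k).1) atTop atTop := tendsto_atTop_mono hp2 hm
  have hmpos : ∀ k, (0 : ℝ) < (p k).2 := fun k => by
    have := hp1 k
    exact_mod_cast (Nat.succ_pos k).trans_le this
  have hnpos : ∀ k, (0 : ℝ) < (p k).1 := fun k =>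
    (hmpos k).trans_le (by exact_mod_cast hp2 k)
  have hratio : Tendsto (fun k => ((p k).2 : ℝ) / (p k).1) atTop (𝓝 1) := by
    have h6 : Tendsto (fun k : ℕ => (1 + 1 / ((k : ℝ) + 1))⁻¹) atTop (𝓝 1) := by
      have := (tendsto_one_div_add_atTop_nhds_zero_nat (𝕜 := ℝ)).const_add 1
      simpa using this.inv₀ (by norm_num)
    refine tendsto_of_tendsto_of_tendsto_of_le_of_le h6 tendsto_const_nhds (fun k => ?_)
      (fun k => ?_)
    · have h7 : 0 < 1 + 1 / ((k : ℝ) + 1) := by positivity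
      rw [le_div_iff₀ (hnpos k), inv_mul_le_iff₀ h7]
      exact hp3 k
    · rw [div_le_one (hnpos k)]
      exact_mod_cast hp2 k
  have h8 := transfer H (n := fun i => (p (ψ i)).1) (m := fun i => (p (ψ i)).2)
    (l := fun i => ((p (ψ i)).2 : ℝ) / (p (ψ i)).1) (hn.comp hψ.tendsto_atTop) one_pos
    (fun i => ⟨div_pos (hmpos _) (hnpos _), by
      rw [div_le_one (hnpos _)]; exact_mod_cast hp2 _⟩)
    (hratio.comp hψ.tendsto_atTop) (fun i => by
      rw [div_mul_cancel₀ _ (hnpos _).ne', sub_self, abs_zero]; exact zero_le_one) hμ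
  rw [S_one] at h8
  have h9 := (((int_cont F).tendsto μ).comp hμ).sub (((int_cont F).tendsto μ).comp h8)
  rw [sub_self] at h9
  have h10 := h9.abs
  rw [abs_zero] at h10
  obtain ⟨i, hi⟩ := (h10.eventually_lt_const hε).exists
  exact absurd (hp4 (ψ i)) (not_le.2 hi)

omit H in
theorem irr23 : Irrational (Real.log 2 / Real.log 3) := by
  rintro ⟨x, hx⟩
  have h3 : 0 < Real.log 3 := Real.log_pos (by norm_num)
  have h2 : 0 < Real.log 2 := Real.log_pos (by norm_num)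
  have hx0 : 0 < (x : ℝ) := by rw [hx]; positivity
  have hxq : 0 < x := by exact_mod_cast hx0
  have hnum : 0 < x.num := Rat.num_pos.2 hxq
  obtain ⟨a, ha⟩ : ∃ a : ℕ, x.num = a := ⟨x.num.toNat, (Int.toNat_of_nonneg hnum.le).symm⟩
  have hden : (x : ℝ) = (a : ℝ) / x.den := by
    rw [Rat.cast_def, ha]
    push_cast
    rfl
  have hd : (0 : ℝ) < x.den := by exact_mod_cast x.pos
  have e1 : Real.log 2 * x.den = a * Real.log 3 := by
    rw [hden] at hx
    rw [div_eq_div_iff hd.ne' h3.ne'] at hx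
    linarith
  have e2 : Real.log ((2 : ℝ) ^ x.den) = Real.log ((3 : ℝ) ^ a) := by
    rw [Real.log_pow, Real.log_pow]
    linarith
  have e3 : (2 : ℝ) ^ x.den = (3 : ℝ) ^ a :=
    Real.log_injOn_pos (Set.mem_Ioi.2 (by positivity)) (Set.mem_Ioi.2 (by positivity)) e2
  have e4 : 2 ^ x.den = 3 ^ a := by exact_mod_cast e3
  have h5 : (2 ^ x.den) % 2 = 0 := by
    have := x.pos
    rw [Nat.pow_mod]
    simp [Nat.pos_iff_ne_zero.1 this]
  have h6 : (3 ^ a) % 2 = 1 := by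
    rw [Nat.pow_mod]
    simp
  rw [e4] at h5
  omega

end Zk62.LS
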