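import Mathlib

/-! The cluster set of a sequence with vanishing increments is connected. -/

set_option autoImplicit false

open Filter Topology

namespace Zk62.LS

theorem cluster_conn {M : Type*} [MetricSpace M] (u : ℕ → M) {K : Set M} (hK : IsCompact K)
    (hu : ∀ n, u n ∈ K) (hd : Tendsto (fun n => dist (u n) (u (n + 1))) atTop (𝓝 0)) :
    IsCompact {x | ∃ φ : ℕ → ℕ, Tendsto φ atTop atTop ∧ Tendsto (fun i => u (φ i)) atTop (𝓝 x)} ∧
      IsPreconnected
        {x | ∃ φ : ℕ → ℕ, Tendsto φ atTop atTop ∧ Tendsto (fun i => u (φ i)) atTop (𝓝 x)} := by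
  set L := {x | ∃ φ : ℕ → ℕ, Tendsto φ atTop atTop ∧ Tendsto (fun i => u (φ i)) atTop (𝓝 x)}
    with hL
  have hcl : ∀ x, x ∈ L ↔ MapClusterPt x atTop u := by
    intro x
    constructor
    · rintro ⟨φ, h1, h2⟩
      exact h2.mapClusterPt.of_comp h1
    · intro h
      obtain ⟨φ, h1, h2⟩ := h.tendsto_subseq
      exact ⟨φ, h1.tendsto_atTop, h2⟩
  have hclosed : IsClosed L := by
    have : L = {x | MapClusterPt x atTop u} := by ext x; exact hcl x
    rw [this]
    exact isClosed_setOfPred_clusterPt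
  have hsub : L ⊆ K := by
    rintro x ⟨φ, h1, h2⟩
    exact hK.isClosed.mem_of_tendsto h2 (Eventually.of_forall fun i => hu _)
  have hcomp : IsCompact L := hK.of_isClosed_subset hclosed hsub
  refine ⟨hcomp, ?_⟩
  rw [isPreconnected_closed_iff]
  intro t t' ht ht' hsubset hne hne'
  by_contra hcon
  rw [Set.not_nonempty_iff_eq_empty] at hcon
  obtain ⟨a, haL, hat⟩ := hne
  obtain ⟨b, hbL, hbt⟩ := hne'
  set A := L ∩ t
  set B := L ∩ t'
  have hA : IsClosed A := hclosed.inter ht
  have hB : IsClosed B := hclosed.inter ht'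
  have hAne : A.Nonempty := ⟨a, haL, hat⟩
  have hBne : B.Nonempty := ⟨b, hbL, hbt⟩
  have hdisj : ∀ x, x ∈ A → x ∉ B := by
    intro x hx hx'
    have : x ∈ L ∩ (t ∩ t') := ⟨hx.1, hx.2, hx'.2⟩
    rw [hcon] at this
    exact this
  set g : M → ℝ := fun x => Metric.infDist x A - Metric.infDist x B with hg
  have hgc : Continuous g := (Metric.continuous_infDist_pt A).sub (Metric.continuous_infDist_pt B)
  have hgA : ∀ x ∈ A, g x < 0 := by
    intro x hx
    have h1 : Metric.infDist x A = 0 := Metric.infDist_zero_of_mem hx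
    have h2 : 0 < Metric.infDist x B := (hB.notMem_iff_infDist_pos hBne).1 (hdisj x hx)
    show Metric.infDist x A - Metric.infDist x B < 0
    linarith
  have hgB : ∀ x ∈ B, 0 < g x := by
    intro x hx
    have h1 : Metric.infDist x B = 0 := Metric.infDist_zero_of_mem hx
    have h2 : 0 < Metric.infDist x A :=
      (hA.notMem_iff_infDist_pos hAne).1 (fun hx' => hdisj x hx' hx)
    show 0 < Metric.infDist x A - Metric.infDist x B
    linarith
  have hglip : ∀ x y, |g x - g y| ≤ 2 * dist x y := by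
    intro x y
    have h1 := (Metric.lipschitz_infDist_pt A).dist_le_mul x y
    have h2 := (Metric.lipschitz_infDist_pt B).dist_le_mul x y
    rw [Real.dist_eq] at h1 h2
    simp only [NNReal.coe_one, one_mul] at h1 h2
    have h3 : g x - g y = (Metric.infDist x A - Metric.infDist y A) -
        (Metric.infDist x B - Metric.infDist y B) := by
      simp only [hg]; ring
    rw [h3]
    have := abs_sub (Metric.infDist x A - Metric.infDist y A)
      (Metric.infDist x B - Metric.infDist y B)
    linarith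
  -- frequently negative, frequently positive
  have hfneg : ∃ᶠ n in atTop, g (u n) < 0 := by
    obtain ⟨φ, h1, h2⟩ := haL
    have h3 := (hgc.tendsto a).comp h2
    have h4 : ∀ᶠ i in atTop, g (u (φ i)) < 0 := h3.eventually_lt_const (hgA a ⟨⟨φ, h1, h2⟩, hat⟩)
    exact h1.frequently h4.frequently
  have hfpos : ∃ᶠ n in atTop, 0 < g (u n) := by
    obtain ⟨φ, h1, h2⟩ := hbL
    have h3 := (hgc.tendsto b).comp h2
    have h4 : ∀ᶠ i in atTop, 0 < g (u (φ i)) := h3.eventually_const_lt (hgB b ⟨⟨φ, h1, h2⟩, hbt⟩)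
    exact h1.frequently h4.frequently
  -- small values
  have hsmall : ∀ ε : ℝ, 0 < ε → ∃ᶠ n in atTop, |g (u n)| ≤ ε := by
    intro ε hε
    by_contra hnot
    rw [Filter.not_frequently] at hnot
    have h5 : ∀ᶠ n in atTop, 2 * dist (u n) (u (n + 1)) < ε := by
      have : Tendsto (fun n => 2 * dist (u n) (u (n + 1))) atTop (𝓝 0) := by
        simpa using hd.const_mul 2
      exact this.eventually_lt_const hε
    obtain ⟨N, hN⟩ := eventually_atTop.1 (hnot.and h5)
    obtain ⟨n0, hn0, hneg⟩ := (frequently_atTop.1 hfneg) N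
    have hall : ∀ k, g (u (n0 + k)) < 0 := by
      intro k
      induction k with
      | zero => exact hneg
      | succ k ih =>
        have h6 := hN (n0 + k) (by omega)
        have h7 := (hN (n0 + (k + 1)) (by omega)).1
        have h8 := hglip (u (n0 + k)) (u (n0 + k + 1))
        rw [not_le] at h7
        have h9 := h6.1
        rw [not_le, abs_of_neg ih] at h9
        by_contra hc
        push Not at hc
        rw [← add_assoc] at hc h7
        have := abs_le.1 h8
        linarith [h6.2]
    obtain ⟨n1, hn1, hpos⟩ := (frequently_atTop.1 hfpos) n0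
    have := hall (n1 - n0)
    rw [Nat.add_sub_cancel' hn1] at this
    linarith
  -- a cluster point with g = 0
  have h10 : ∀ k : ℕ, ∃ n ≥ k, |g (u n)| ≤ 1 / ((k : ℝ) + 1) := fun k =>
    (frequently_atTop.1 (hsmall (1 / ((k : ℝ) + 1)) (by positivity))) k
  choose m hm1 hm2 using h10
  obtain ⟨x, hxK, ψ, hψ, hx⟩ := hK.tendsto_subseq (x := fun k => u (m k)) (fun k => hu _)
  have hmt : Tendsto m atTop atTop := tendsto_atTop_mono hm1 tendsto_id
  have hxL : x ∈ L := ⟨fun i => m (ψ i), hmt.comp hψ.tendsto_atTop, hx⟩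
  have hg0 : g x = 0 := by
    have h11 : Tendsto (fun i => g (u (m (ψ i)))) atTop (𝓝 (g x)) := (hgc.tendsto x).comp hx
    have h12 : Tendsto (fun i => g (u (m (ψ i)))) atTop (𝓝 0) := by
      refine squeeze_zero_norm (a := fun i => 1 / (((ψ i : ℕ) : ℝ) + 1)) (fun i => hm2 (ψ i)) ?_
      exact (tendsto_one_div_add_atTop_nhds_zero_nat (𝕜 := ℝ)).comp hψ.tendsto_atTop
    exact tendsto_nhds_unique h11 h12
  rcases hsubset hxL with h | h
  · exact (hgA x ⟨hxL, h⟩).ne hg0
  · exact (hgB x ⟨hxL, h⟩).ne' hg0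

end Zk62.LS
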