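import Pool.Agent.Zk62.LS.Abs
import Pool.Agent.Zk62.LS.Conn

/-! Structure of the set of subsequential limits. -/

set_option autoImplicit false

open MeasureTheory Filter Topology

namespace Zk62.LS

variable {Ω : Type*} [MeasurableSpace Ω] {P : Measure Ω} [IsProbabilityMeasure P]
  {X : ℕ → Ω → E} {h : ℝ} (H : Scaling P X h)

include H

/-- The set of limits is compact and connected. -/
theorem lims_conn : IsCompact (Lims (lw P H.meas)) ∧ IsConnected (Lims (lw P H.meas)) := by
  let _ : MetricSpace (ProbabilityMeasure E) := TopologicalSpace.metrizableSpaceMetric _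
  have hd : Tendsto (fun n => dist (lw P H.meas n) (lw P H.meas (n + 1))) atTop (𝓝 0) := by
    refine tendsto_of_subseq_tendsto fun ns hns => ?_
    obtain ⟨ψ, hψ, μ, hμ⟩ := subseq H (fun i => ns i + 1)
    refine ⟨ψ, ?_⟩
    have h1 := succ_limit H (φ := fun i => ns (ψ i)) (hns.comp hψ.tendsto_atTop) hμ
    have h2 := h1.dist hμ
    rwa [dist_self] at h2
  obtain ⟨h1, h2⟩ := cluster_conn (lw P H.meas) (compact_all H)
    (fun n => subset_closure ⟨n, rfl⟩) hd
  exact ⟨h1, lims_nonempty H, h2⟩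

/-- One limit: convergence of the whole sequence. -/
theorem tendsto_of_subsingleton {μ : ProbabilityMeasure E}
    (hs : ∀ ν ∈ Lims (lw P H.meas), ν = μ) : Tendsto (lw P H.meas) atTop (𝓝 μ) := by
  refine tendsto_of_subseq_tendsto fun ns hns => ?_
  obtain ⟨ψ, hψ, ν, hν⟩ := subseq H ns
  refine ⟨ψ, ?_⟩
  rw [← hs ν ⟨fun i => ns (ψ i), hns.comp hψ.tendsto_atTop, hν⟩]
  exact hν

omit H in
/-- Laws are determined by the integrals of bounded continuous functions. -/
theorem law_ext {μ ν : ProbabilityMeasure E}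
    (hh : ∀ F : BoundedContinuousFunction E ℝ, ∫ f, F f ∂(μ : Measure E) =
      ∫ f, F f ∂(ν : Measure E)) : μ = ν := by
  apply Subtype.ext
  exact ext_of_forall_integral_eq_of_IsFiniteMeasure (μ := (μ : Measure E))
    (ν := (ν : Measure E)) hh

omit H in
theorem int_cont (F : BoundedContinuousFunction E ℝ) :
    Continuous fun μ : ProbabilityMeasure E => ∫ f, F f ∂(μ : Measure E) := by
  rw [continuous_iff_continuousAt]
  intro μ
  exact (ProbabilityMeasure.tendsto_iff_forall_integral_tendsto.1 tendsto_id) F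

/-- The values of a bounded continuous functional form a compact interval. -/
theorem values (F : BoundedContinuousFunction E ℝ) :
    (fun μ : ProbabilityMeasure E => ∫ f, F f ∂(μ : Measure E)) '' Lims (lw P H.meas) =
      Set.Icc (sInf ((fun μ : ProbabilityMeasure E => ∫ f, F f ∂(μ : Measure E)) ''
        Lims (lw P H.meas))) (sSup ((fun μ : ProbabilityMeasure E => ∫ f, F f ∂(μ : Measure E)) ''
        Lims (lw P H.meas))) := by
  obtain ⟨h1, h2⟩ := lims_conn H
  exact eq_Icc_of_connected_compact (h2.image _ (int_cont F).continuousOn)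
    (h1.image (int_cont F))

/-- The dichotomy. -/
theorem dichotomy :
    (∃ μ : ProbabilityMeasure E, Tendsto (lw P H.meas) atTop (𝓝 μ)) ∨
    (∃ F : BoundedContinuousFunction E ℝ, ∃ a b : ℝ, a < b ∧ ∀ c ∈ Set.Icc a b,
      ∃ μ ∈ Lims (lw P H.meas), ∫ f, F f ∂(μ : Measure E) = c) := by
  obtain ⟨μ, hμ⟩ := lims_nonempty H
  by_cases hs : ∀ ν ∈ Lims (lw P H.meas), ν = μ
  · exact Or.inl ⟨μ, tendsto_of_subsingleton H hs⟩
  · right
    push Not at hs
    obtain ⟨ν, hν, hne⟩ := hs
    obtain ⟨F, hF⟩ : ∃ F : BoundedContinuousFunction E ℝ, ∫ f, F f ∂(ν : Measure E) ≠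
        ∫ f, F f ∂(μ : Measure E) := by
      by_contra hcon
      push Not at hcon
      exact hne (law_ext hcon)
    have hpre : IsPreconnected ((fun μ : ProbabilityMeasure E => ∫ f, F f ∂(μ : Measure E)) ''
        Lims (lw P H.meas)) := ((lims_conn H).2.isPreconnected).image _ (int_cont F).continuousOn
    rcases lt_or_gt_of_ne hF with hlt | hlt
    · refine ⟨F, _, _, hlt, fun c hc => ?_⟩
      obtain ⟨ρ, h1, h2⟩ := hpre.Icc_subset ⟨ν, hν, rfl⟩ ⟨μ, hμ, rfl⟩ hc
      exact ⟨ρ, h1, h2⟩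
    · refine ⟨F, _, _, hlt, fun c hc => ?_⟩
      obtain ⟨ρ, h1, h2⟩ := hpre.Icc_subset ⟨μ, hμ, rfl⟩ ⟨ν, hν, rfl⟩ hc
      exact ⟨ρ, h1, h2⟩

/-- Countably many limits: one limit. -/
theorem of_countable (hc : (Lims (lw P H.meas)).Countable) :
    ∃ μ : ProbabilityMeasure E, Tendsto (lw P H.meas) atTop (𝓝 μ) := by
  rcases dichotomy H with h1 | ⟨F, a, b, hab, hF⟩
  · exact h1
  · exfalso
    have h2 : (Set.Icc a b).Countable := by
      refine (hc.image fun μ : ProbabilityMeasure E => ∫ f, F f ∂(μ : Measure E)).mono ?_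
      intro c hc
      obtain ⟨μ, h3, h4⟩ := hF c hc
      exact ⟨μ, h3, h4⟩
    have h5 := h2.measure_zero (volume : Measure ℝ)
    rw [Real.volume_Icc] at h5
    rw [ENNReal.ofReal_eq_zero] at h5
    linarith

end Zk62.LS
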