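import Pool.Agent.Zk62.LS.Random
import Pool.Agent.Zk62.LS.Main

/-! Limits at random scales are mean values of limits. -/

set_option autoImplicit false

open MeasureTheory Filter Topology

namespace Zk62.LS

variable {Ω : Type*} [MeasurableSpace Ω] {P : Measure Ω} [IsProbabilityMeasure P]
  {X : ℕ → Ω → E} {h : ℝ} (H : Scaling P X h)

include H

/-- Eventually the integrals are at most a bound for the integrals of the limits. -/
theorem eventually_le {F : BoundedContinuousFunction E ℝ} {b : ℝ}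
    (hb : ∀ μ ∈ Lims (lw P H.meas), ∫ f, F f ∂(μ : Measure E) ≤ b) {ε : ℝ} (hε : 0 < ε) :
    ∀ᶠ n in atTop, ∫ f, F f ∂(lw P H.meas n : Measure E) < b + ε := by
  by_contra hcon
  rw [not_eventually] at hcon
  obtain ⟨φ, hφ, hφ2⟩ := extraction_of_frequently_atTop hcon
  obtain ⟨ψ, hψ, μ, hμ⟩ := subseq H φ
  have h1 : μ ∈ Lims (lw P H.meas) := ⟨fun i => φ (ψ i), hφ.tendsto_atTop.comp hψ.tendsto_atTop, hμ⟩
  have h2 := ((int_cont F).tendsto μ).comp hμ
  have h3 : b + ε ≤ ∫ f, F f ∂(μ : Measure E) :=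
    ge_of_tendsto' h2 fun i => not_lt.1 (hφ2 (ψ i))
  have h4 := hb μ h1
  linarith

theorem mean_le {T : ℕ → ℝ} (hT : Tendsto T atTop atTop) {ν : ProbabilityMeasure E}
    (hν : Tendsto (fun i => rl P H.meas (T i)) atTop (𝓝 ν)) {F : BoundedContinuousFunction E ℝ}
    {b : ℝ} (hb : ∀ μ ∈ Lims (lw P H.meas), ∫ f, F f ∂(μ : Measure E) ≤ b) :
    ∫ f, F f ∂(ν : Measure E) ≤ b := by
  have t1 := ((int_cont F).tendsto ν).comp hν
  set G : ℕ → ℝ := fun n => ∫ f, F f ∂(lw P H.meas n : Measure E) with hG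
  have hmeasT : ∀ i : ℕ, Measurable fun u : ℝ => (T i) ^ u := fun i =>
    (measurable_const.pow measurable_id)
  have d1 : Tendsto (fun i => ∫ u in (0 : ℝ)..1, max (G ⌊T i ^ u⌋₊) b) atTop
      (𝓝 b) := by
    have := intervalIntegral.tendsto_integral_filter_of_dominated_convergence
      (μ := volume) (a := 0) (b := 1) (l := atTop)
      (F := fun i u => max (G ⌊T i ^ u⌋₊) b) (f := fun _ => b)
      (fun _ => ‖F‖ + |b|) ?_ ?_ ?_ ?_
    · simpa using this
    · refine Eventually.of_forall fun i => ?_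
      refine Measurable.aestronglyMeasurable ?_
      exact Measurable.max (G_meas H.meas F (hmeasT i)) measurable_const
    · refine Eventually.of_forall fun i => Eventually.of_forall fun u _ => ?_
      rw [Real.norm_eq_abs]
      have h1 := G_bound H.meas F (P := P) (X := X) ⌊T i ^ u⌋₊
      refine (abs_max_le_max_abs_abs).trans ?_
      refine max_le ?_ ?_
      · exact h1.trans (by linarith [abs_nonneg b])
      · linarith [norm_nonneg F]
    · exact intervalIntegrable_const
    · refine Eventually.of_forall fun u hu => ?_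
      rw [Set.uIoc_of_le zero_le_one] at hu
      have hTu : Tendsto (fun i => T i ^ u) atTop atTop := (tendsto_rpow_atTop hu.1).comp hT
      have hTn : Tendsto (fun i => ⌊T i ^ u⌋₊) atTop atTop := tendsto_nat_floor_atTop.comp hTu
      rw [Metric.tendsto_atTop]
      intro ε hε
      have h2 := hTn.eventually (eventually_le H hb hε)
      obtain ⟨N, hN⟩ := eventually_atTop.1 h2
      refine ⟨N, fun i hi => ?_⟩
      have h3 : G ⌊T i ^ u⌋₊ < b + ε := hN i hi
      rw [Real.dist_eq, abs_of_nonneg (by linarith [le_max_right (G ⌊T i ^ u⌋₊) b])]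
      have : max (G ⌊T i ^ u⌋₊) b < b + ε := max_lt h3 (by linarith)
      linarith
  refine le_of_tendsto_of_tendsto' t1 d1 fun i => ?_
  show ∫ f, F f ∂(rl P H.meas (T i) : Measure E) ≤ _
  rw [rl_int]
  have hb1 : ∀ u : ℝ, |G ⌊T i ^ u⌋₊| ≤ ‖F‖ := fun u => G_bound H.meas F _
  apply intervalIntegral.integral_mono_on zero_le_one
  · refine IntervalIntegrable.mono_fun (f := fun _ => ‖F‖) intervalIntegrable_const
      (G_meas H.meas F (hmeasT i)).aestronglyMeasurable (Eventually.of_forall fun v => ?_)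
    show |G ⌊T i ^ v⌋₊| ≤ |‖F‖|
    rw [abs_of_nonneg (norm_nonneg F)]
    exact hb1 v
  · refine IntervalIntegrable.mono_fun (f := fun _ => ‖F‖ + |b|) intervalIntegrable_const
      ((G_meas H.meas F (hmeasT i)).max measurable_const).aestronglyMeasurable
      (Eventually.of_forall fun v => ?_)
    show abs (max (G ⌊T i ^ v⌋₊) b) ≤ abs (‖F‖ + abs b)
    rw [abs_of_nonneg (a := ‖F‖ + |b|) (by positivity)]
    refine (abs_max_le_max_abs_abs).trans (max_le ?_ ?_)
    · exact (hb1 v).trans (by linarith [abs_nonneg b])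
    · linarith [norm_nonneg F]
  · intro u _
    exact le_max_left _ _

/-- Every limit at random scales has, for every functional, the value of some limit. -/
theorem mean_value {T : ℕ → ℝ} (hT : Tendsto T atTop atTop) {ν : ProbabilityMeasure E}
    (hν : Tendsto (fun i => rl P H.meas (T i)) atTop (𝓝 ν)) (F : BoundedContinuousFunction E ℝ) :
    ∃ μ ∈ Lims (lw P H.meas), ∫ f, F f ∂(μ : Measure E) = ∫ f, F f ∂(ν : Measure E) := by
  obtain ⟨hc, hne, hp⟩ := lims_conn H
  set V := (fun μ : ProbabilityMeasure E => ∫ f, F f ∂(μ : Measure E)) '' Lims (lw P H.meas)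
    with hV
  have hVc : IsCompact V := hc.image (int_cont F)
  have hV2 := values H F
  have h1 : ∫ f, F f ∂(ν : Measure E) ≤ sSup V :=
    mean_le H hT hν fun μ hμ => le_csSup hVc.bddAbove ⟨μ, hμ, rfl⟩
  have h2 : -(∫ f, F f ∂(ν : Measure E)) ≤ -sInf V := by
    have := mean_le H hT hν (F := -F) (b := -sInf V) fun μ hμ => by
      have h3 : sInf V ≤ ∫ f, F f ∂(μ : Measure E) := csInf_le hVc.bddBelow ⟨μ, hμ, rfl⟩
      have h4 : ∫ f, (-F) f ∂(μ : Measure E) = -∫ f, F f ∂(μ : Measure E) := by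
        rw [← integral_neg]; rfl
      rw [h4]
      linarith
    have h4 : ∫ f, (-F) f ∂(ν : Measure E) = -∫ f, F f ∂(ν : Measure E) := by
      rw [← integral_neg]; rfl
    rwa [h4] at this
  have h3 : ∫ f, F f ∂(ν : Measure E) ∈ V := by
    rw [hV, hV2]
    exact ⟨by linarith, h1⟩
  obtain ⟨μ, hμ, he⟩ := h3
  exact ⟨μ, hμ, he⟩

end Zk62.LS
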