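import Pool.Agent.Zk62.LS.Main

/-! Convergence along scales with bounded ratios. -/

set_option autoImplicit false

open MeasureTheory Filter Topology

namespace Zk62.LS

variable {Ω : Type*} [MeasurableSpace Ω] {P : Measure Ω} [IsProbabilityMeasure P]
  {X : ℕ → Ω → E} {h : ℝ} (H : Scaling P X h)

include H

/-- If the laws converge along scales with bounded ratios, then every limit is a rescaling of the
limit. -/
theorem bounded_ratio {ns : ℕ → ℕ} (hns : Tendsto ns atTop atTop) {C : ℝ} (hC1 : 1 ≤ C)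
    (hC : ∀ k, (ns (k + 1) : ℝ) ≤ C * ns k) {μ : ProbabilityMeasure E}
    (hμ : Tendsto (fun k : ℕ => lw P H.meas (ns k)) atTop (𝓝 μ)) {ν : ProbabilityMeasure E}
    (hν : ν ∈ Lims (lw P H.meas)) : ∃ l ∈ Set.Icc C⁻¹ 1, S h l μ = ν := by
  have hC0 : 0 < C := one_pos.trans_le hC1
  have hCi0 : 0 < C⁻¹ := inv_pos.2 hC0
  have hCi1 : C⁻¹ ≤ 1 := inv_le_one_of_one_le₀ hC1
  obtain ⟨φ, hφ, hν⟩ := hν
  have hk : ∀ i, ∃ k : ℕ, ns 0 < φ i → φ i ≤ ns k ∧ (ns k : ℝ) ≤ C * φ i := by
    intro i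
    by_cases hi : ns 0 < φ i
    · have h2 : ∃ k : ℕ, φ i ≤ ns k := (hns.eventually_ge_atTop (φ i)).exists
      classical
      refine ⟨Nat.find h2, fun _ => ⟨Nat.find_spec h2, ?_⟩⟩
      rcases Nat.eq_zero_or_pos (Nat.find h2) with h3 | h3
      · exfalso
        have := Nat.find_spec h2
        rw [h3] at this
        omega
      · have h4 := Nat.find_min h2 (m := Nat.find h2 - 1) (by omega)
        push Not at h4
        have h5 := hC (Nat.find h2 - 1)
        rw [show Nat.find h2 - 1 + 1 = Nat.find h2 by omega] at h5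
        refine h5.trans ?_
        apply mul_le_mul_of_nonneg_left _ hC0.le
        exact_mod_cast h4.le
    · exact ⟨0, fun h => absurd h hi⟩
  choose k hk using hk
  have hev := hφ.eventually_gt_atTop (ns 0)
  have hnk : Tendsto (fun i => ns (k i)) atTop atTop := by
    rw [tendsto_atTop]
    intro b
    filter_upwards [hev, hφ.eventually_ge_atTop b] with i h7 h8
    exact h8.trans (hk i h7).1
  have hkt : Tendsto k atTop atTop := by
    rw [tendsto_atTop]
    intro b
    have h6 : ∃ M, ∀ j < b, ns j < M := by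
      refine ⟨(Finset.range b).sup ns + 1, fun j hj => ?_⟩
      exact Nat.lt_succ_of_le (Finset.le_sup (f := ns) (Finset.mem_range.2 hj))
    obtain ⟨M, hM⟩ := h6
    filter_upwards [hnk.eventually_ge_atTop M] with i h7
    by_contra hc
    push Not at hc
    exact absurd (hM (k i) hc) (by omega)
  have hl : ∀ i, ∃ l : ℝ, l ∈ Set.Icc C⁻¹ 1 ∧ (ns 0 < φ i → l = (φ i : ℝ) / ns (k i)) := by
    intro i
    by_cases hi : ns 0 < φ i
    · obtain ⟨h8, h9⟩ := hk i hi
      have h11 : (0 : ℝ) < ns (k i) := by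
        have : 0 < ns (k i) := by omega
        exact_mod_cast this
      refine ⟨(φ i : ℝ) / ns (k i), ?_, fun _ => rfl⟩
      constructor
      · rw [le_div_iff₀ h11, inv_mul_le_iff₀ hC0]
        exact h9
      · rw [div_le_one h11]
        exact_mod_cast h8
    · exact ⟨1, ⟨hCi1, le_rfl⟩, fun h => absurd h hi⟩
  choose l hl1 hl2 using hl
  obtain ⟨l0, hl0, ψ, hψ, hψl⟩ := isCompact_Icc.tendsto_subseq hl1
  refine ⟨l0, hl0, ?_⟩
  have hl0p : 0 < l0 := hCi0.trans_le hl0.1
  obtain ⟨N, hN⟩ := eventually_atTop.1 (hψ.tendsto_atTop.eventually hev)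
  have hj : Tendsto (fun i => ψ (i + N)) atTop atTop :=
    hψ.tendsto_atTop.comp (tendsto_add_atTop_nat N)
  have h12 := transfer H (n := fun i => ns (k (ψ (i + N)))) (m := fun i => φ (ψ (i + N)))
    (l := fun i => l (ψ (i + N))) (l0 := l0) (μ := μ) (hnk.comp hj)
    hl0p (fun i => ⟨hCi0.trans_le (hl1 _).1, (hl1 _).2⟩)
    (hψl.comp (tendsto_add_atTop_nat N)) (fun i => ?_) (hμ.comp (hkt.comp hj))
  · exact tendsto_nhds_unique h12 (hν.comp hj)
  · have h13 := hN (i + N) (by omega)
    have h14 := hl2 (ψ (i + N)) h13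
    have h15 : (0 : ℝ) < ns (k (ψ (i + N))) := by
      have := (hk (ψ (i + N)) h13).1
      have h16 : ns 0 < φ (ψ (i + N)) := h13
      have : 0 < ns (k (ψ (i + N))) := by omega
      exact_mod_cast this
    have e : l (ψ (i + N)) * ns (k (ψ (i + N))) = φ (ψ (i + N)) := by rw [h14]; field_simp
    rw [e, sub_self, abs_zero]
    exact zero_le_one

/-- Convergence to a self-similar law along scales with bounded ratios is convergence. -/
theorem bounded_ratio_conv {ns : ℕ → ℕ} (hns : Tendsto ns atTop atTop) {C : ℝ}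
    (hC : ∀ k, (ns (k + 1) : ℝ) ≤ C * ns k) {μ : ProbabilityMeasure E}
    (hμ : Tendsto (fun k : ℕ => lw P H.meas (ns k)) atTop (𝓝 μ))
    (hs : ∀ l : ℝ, 0 < l → l ≤ 1 → S h l μ = μ) : Tendsto (lw P H.meas) atTop (𝓝 μ) := by
  refine tendsto_of_subsingleton H fun ν hν => ?_
  obtain ⟨l, hl, he⟩ := bounded_ratio H hns (le_max_right C 1) (fun k => (hC k).trans
    (mul_le_mul_of_nonneg_right (le_max_left C 1) (Nat.cast_nonneg _))) hμ hν
  rw [← he]
  exact hs l ((inv_pos.2 (one_pos.trans_le (le_max_right C 1))).trans_le hl.1) hl.2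

end Zk62.LS
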