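import Pool.Agent.Zk62.LS.Main

/-! Convergence along geometric scales. -/

set_option autoImplicit false

open MeasureTheory Filter Topology

namespace Zk62.LS

theorem floor_pow_tendsto {q : ℝ} (hq : 1 < q) :
    Tendsto (fun k : ℕ => ⌊q ^ k⌋₊) atTop atTop :=
  tendsto_nat_floor_atTop.comp (tendsto_pow_atTop_atTop_of_one_lt hq)

variable {Ω : Type*} [MeasurableSpace Ω] {P : Measure Ω} [IsProbabilityMeasure P]
  {X : ℕ → Ω → E} {h : ℝ} (H : Scaling P X h)

include H

/-- Convergence along the scales `q ^ k`: the limit is invariant under `q⁻¹` and every limit is a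
rescaling of it. -/
theorem one_scale {q : ℝ} (hq : 1 < q) {μ : ProbabilityMeasure E}
    (hμ : Tendsto (fun k : ℕ => lw P H.meas ⌊q ^ k⌋₊) atTop (𝓝 μ)) :
    S h q⁻¹ μ = μ ∧ Lims (lw P H.meas) = (fun l => S h l μ) '' Set.Icc q⁻¹ 1 := by
  have hq0 : 0 < q := one_pos.trans hq
  have hqi0 : 0 < q⁻¹ := inv_pos.2 hq0
  have hqi1 : q⁻¹ ≤ 1 := inv_le_one_of_one_le₀ hq.le
  have hmem : μ ∈ Lims (lw P H.meas) := ⟨_, floor_pow_tendsto hq, hμ⟩
  refine ⟨?_, ?_⟩
  · have h1 := transfer H (n := fun k : ℕ => ⌊q ^ (k + 1)⌋₊) (m := fun k : ℕ => ⌊q ^ k⌋₊)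
      (l := fun _ => q⁻¹) ((floor_pow_tendsto hq).comp (tendsto_add_atTop_nat 1)) hqi0
      (fun _ => ⟨hqi0, hqi1⟩) tendsto_const_nhds (fun k => ?_)
      (hμ.comp (tendsto_add_atTop_nat 1))
    · exact tendsto_nhds_unique h1 hμ
    · have a1 := Nat.floor_le (pow_nonneg hq0.le (k + 1))
      have a2 := Nat.lt_floor_add_one (q ^ (k + 1))
      have a3 := Nat.floor_le (pow_nonneg hq0.le k)
      have a4 := Nat.lt_floor_add_one (q ^ k)
      have e : q⁻¹ * q ^ (k + 1) = q ^ k := by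
        rw [pow_succ]; field_simp
      have b1 := mul_le_mul_of_nonneg_left a1 hqi0.le
      have b2 := mul_lt_mul_of_pos_left a2 hqi0
      rw [mul_add, mul_one, e] at *
      rw [abs_le]
      constructor <;> linarith
  · ext ν
    constructor
    · rintro ⟨φ, hφ, hν⟩
      -- the exponents
      have hk : ∀ i, ∃ k : ℕ, 1 ≤ φ i → (φ i : ℝ) ≤ q ^ k ∧ q ^ k < (φ i : ℝ) * q := by
        intro i
        by_cases hi : 1 ≤ φ i
        · have h2 : ∃ k : ℕ, (φ i : ℝ) ≤ q ^ k := by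
            obtain ⟨k, hk⟩ := pow_unbounded_of_one_lt (φ i : ℝ) hq
            exact ⟨k, hk.le⟩
          classical
          refine ⟨Nat.find h2, fun _ => ⟨Nat.find_spec h2, ?_⟩⟩
          have hphi : (1 : ℝ) ≤ φ i := by exact_mod_cast hi
          rcases Nat.eq_zero_or_pos (Nat.find h2) with h3 | h3
          · rw [h3, pow_zero]
            nlinarith
          · have h4 := Nat.find_min h2 (m := Nat.find h2 - 1) (by omega)
            push Not at h4
            have h5 : q ^ Nat.find h2 = q ^ (Nat.find h2 - 1) * q := by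
              rw [← pow_succ]; congr 1; omega
            rw [h5]
            exact mul_lt_mul_of_pos_right h4 hq0
        · exact ⟨0, fun h => absurd h hi⟩
      choose k hk using hk
      have hev := hφ.eventually_ge_atTop 1
      have hkt : Tendsto k atTop atTop := by
        rw [tendsto_atTop]
        intro b
        have h6 : Tendsto (fun i => (φ i : ℝ)) atTop atTop :=
          tendsto_natCast_atTop_atTop.comp hφ
        filter_upwards [hev, h6.eventually_gt_atTop (q ^ b)] with i h7 h8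
        by_contra hc
        push Not at hc
        have h9 := (hk i h7).1
        have h10 : q ^ (k i) ≤ q ^ b := pow_le_pow_right₀ hq.le hc.le
        linarith
      -- ratios in a compact interval
      have hl : ∀ i, ∃ l : ℝ, l ∈ Set.Icc q⁻¹ 1 ∧ (1 ≤ φ i → l = (φ i : ℝ) / q ^ (k i)) := by
        intro i
        by_cases hi : 1 ≤ φ i
        · refine ⟨(φ i : ℝ) / q ^ (k i), ?_, fun _ => rfl⟩
          have h11 : 0 < q ^ (k i) := by positivity
          constructor
          · rw [le_div_iff₀ h11, inv_mul_le_iff₀ hq0, mul_comm]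
            exact (hk i hi).2.le
          · rw [div_le_one h11]
            exact (hk i hi).1
        · exact ⟨1, ⟨hqi1, le_rfl⟩, fun h => absurd h hi⟩
      choose l hl1 hl2 using hl
      obtain ⟨l0, hl0, ψ, hψ, hψl⟩ := isCompact_Icc.tendsto_subseq hl1
      refine ⟨l0, hl0, ?_⟩
      have hl0p : 0 < l0 := hqi0.trans_le hl0.1
      obtain ⟨N, hN⟩ := eventually_atTop.1 (hψ.tendsto_atTop.eventually hev)
      have h12 := transfer H (n := fun i => ⌊q ^ (k (ψ (i + N)))⌋₊) (m := fun i => φ (ψ (i + N)))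
        (l := fun i => l (ψ (i + N))) (l0 := l0) (μ := μ)
        ((floor_pow_tendsto hq).comp (hkt.comp (hψ.tendsto_atTop.comp (tendsto_add_atTop_nat N))))
        hl0p (fun i => ⟨hqi0.trans_le (hl1 _).1, (hl1 _).2⟩)
        (hψl.comp (tendsto_add_atTop_nat N)) (fun i => ?_)
        (hμ.comp (hkt.comp (hψ.tendsto_atTop.comp (tendsto_add_atTop_nat N))))
      · exact tendsto_nhds_unique h12
          (hν.comp (hψ.tendsto_atTop.comp (tendsto_add_atTop_nat N)))
      · have h13 := hN (i + N) (by omega)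
        have h14 := hl2 (ψ (i + N)) h13
        set j := ψ (i + N)
        have h15 : 0 < q ^ (k j) := by positivity
        have a1 := Nat.floor_le h15.le
        have a2 := Nat.lt_floor_add_one (q ^ (k j))
        have e : l j * q ^ (k j) = φ j := by rw [h14]; field_simp
        have c1 : 0 < l j := hqi0.trans_le (hl1 _).1
        have c2 : l j ≤ 1 := (hl1 _).2
        have b1 := mul_le_mul_of_nonneg_left a1 c1.le
        have b2 := mul_lt_mul_of_pos_left a2 c1
        rw [mul_add, mul_one] at b2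
        rw [abs_le]
        constructor <;> linarith
    · rintro ⟨l, ⟨hl1, hl2⟩, rfl⟩
      exact S_mem H hmem (hqi0.trans_le hl1) hl2

omit [MeasurableSpace Ω] [IsProbabilityMeasure P] H in
/-- Powers. -/
theorem S_inv_pow {q : ℝ} (hq : 1 < q) {μ : ProbabilityMeasure E} (hμ : S h q⁻¹ μ = μ) (a : ℕ) :
    S h ((q⁻¹) ^ a) μ = μ := by
  have hq0 : 0 < q := one_pos.trans hq
  induction a with
  | zero => rw [pow_zero, S_one]
  | succ a ih =>
    rw [pow_succ, ← S_comp (by positivity) (pow_le_one₀ (by positivity)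
      (inv_le_one_of_one_le₀ hq.le)) (by positivity) (inv_le_one_of_one_le₀ hq.le), hμ, ih]

/-- Convergence along two multiplicatively independent geometric scales implies convergence. -/
theorem two_scales {q r : ℝ} (hq : 1 < q) (hr : 1 < r)
    (hirr : Irrational (Real.log q / Real.log r)) {μ ν : ProbabilityMeasure E}
    (hμ : Tendsto (fun k : ℕ => lw P H.meas ⌊q ^ k⌋₊) atTop (𝓝 μ))
    (hν : Tendsto (fun k : ℕ => lw P H.meas ⌊r ^ k⌋₊) atTop (𝓝 ν)) :
    Tendsto (lw P H.meas) atTop (𝓝 μ) := by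
  have hq0 : 0 < q := one_pos.trans hq
  have hr0 : 0 < r := one_pos.trans hr
  have hqi0 : 0 < q⁻¹ := inv_pos.2 hq0
  have hri0 : 0 < r⁻¹ := inv_pos.2 hr0
  have hqi1 : q⁻¹ ≤ 1 := inv_le_one_of_one_le₀ hq.le
  have hri1 : r⁻¹ ≤ 1 := inv_le_one_of_one_le₀ hr.le
  obtain ⟨h1, h2⟩ := one_scale H hq hμ
  obtain ⟨h3, -⟩ := one_scale H hr hν
  have hνm : ν ∈ Lims (lw P H.meas) := ⟨_, floor_pow_tendsto hr, hν⟩
  rw [h2] at hνm
  obtain ⟨l, ⟨hl1, hl2⟩, hl3⟩ := hνm
  simp only at hl3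
  have hl0 : 0 < l := hqi0.trans_le hl1
  -- μ is invariant under r⁻¹
  have h4 : S h r⁻¹ μ = μ := by
    -- apply `S (q⁻¹ / l)` to `S r⁻¹ (S l μ) = S l μ`
    have e1 : q⁻¹ / l * l = q⁻¹ := by field_simp
    have c0 : 0 < q⁻¹ / l := by positivity
    have c1 : q⁻¹ / l ≤ 1 := (div_le_one hl0).2 hl1
    have h5 : S h (q⁻¹ / l) (S h r⁻¹ (S h l μ)) = S h r⁻¹ μ := by
      rw [S_comp c0 c1 hri0 hri1, mul_comm, ← S_comp hri0 hri1 c0 c1, S_comp c0 c1 hl0 hl2, e1, h1]
    have h6 : S h (q⁻¹ / l) (S h l μ) = μ := by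
      rw [S_comp c0 c1 hl0 hl2, e1, h1]
    rw [← h5, hl3, h3, ← hl3, h6]
  -- all rescalings
  have hgen : ∀ t : ℝ, 0 < t → t ≤ 1 → (∃ a b : ℕ, t = q ^ a * (r⁻¹) ^ b ∨
      t = (q⁻¹) ^ a * r ^ b ∨ t = (q⁻¹) ^ a * (r⁻¹) ^ b) → S h t μ = μ := by
    rintro t ht0 ht1 ⟨a, b, h7⟩
    have hpq := S_inv_pow hq h1 a
    have hpr := S_inv_pow hr h4 b
    have ca0 : 0 < (q⁻¹) ^ a := by positivity
    have ca1 : (q⁻¹) ^ a ≤ 1 := pow_le_one₀ hqi0.le hqi1
    have cb0 : 0 < (r⁻¹) ^ b := by positivity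
    have cb1 : (r⁻¹) ^ b ≤ 1 := pow_le_one₀ hri0.le hri1
    rcases h7 with h7 | h7 | h7
    · have e : (q⁻¹) ^ a * t = (r⁻¹) ^ b := by
        rw [h7, ← mul_assoc, ← mul_pow, inv_mul_cancel₀ hq0.ne', one_pow, one_mul]
      have h8 : S h ((q⁻¹) ^ a) (S h t μ) = μ := by rw [S_comp ca0 ca1 ht0 ht1, e, hpr]
      have h9 : S h ((q⁻¹) ^ a) (S h t μ) = S h t μ := by
        rw [S_comp ca0 ca1 ht0 ht1, mul_comm, ← S_comp ht0 ht1 ca0 ca1, hpq]
      rw [← h9, h8]
    · have e : (r⁻¹) ^ b * t = (q⁻¹) ^ a := by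
        rw [h7, mul_comm ((q⁻¹) ^ a), ← mul_assoc, ← mul_pow, inv_mul_cancel₀ hr0.ne', one_pow,
          one_mul]
      have h8 : S h ((r⁻¹) ^ b) (S h t μ) = μ := by rw [S_comp cb0 cb1 ht0 ht1, e, hpq]
      have h9 : S h ((r⁻¹) ^ b) (S h t μ) = S h t μ := by
        rw [S_comp cb0 cb1 ht0 ht1, mul_comm, ← S_comp ht0 ht1 cb0 cb1, hpr]
      rw [← h9, h8]
    · rw [h7, ← S_comp ca0 ca1 cb0 cb1, hpr, hpq]
  -- density
  have hall : ∀ t : ℝ, 0 < t → t ≤ 1 → S h t μ = μ := by
    intro t ht0 ht1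
    rcases eq_or_lt_of_le ht1 with rfl | htlt
    · exact S_one h μ
    have hdense : Dense (AddSubgroup.closure {Real.log q, Real.log r} : Set ℝ) := by
      rw [dense_addSubgroupClosure_pair_iff]
      exact hirr
    have hlt : Real.log t < 0 := Real.log_neg ht0 htlt
    obtain ⟨s, hs1, hs2⟩ : ∃ s : ℕ → ℝ, (∀ i, s i < 0 ∧
        s i ∈ (AddSubgroup.closure {Real.log q, Real.log r} : Set ℝ)) ∧
        Tendsto s atTop (𝓝 (Real.log t)) := by
      have h10 : Real.log t ∈ closure (Set.Iio 0 ∩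
          (AddSubgroup.closure {Real.log q, Real.log r} : Set ℝ)) :=
        hdense.open_subset_closure_inter isOpen_Iio hlt
      obtain ⟨s, hs, hst⟩ := mem_closure_iff_seq_limit.1 h10
      exact ⟨s, fun i => ⟨(hs i).1, (hs i).2⟩, hst⟩
    have hexp : Tendsto (fun i => Real.exp (s i)) atTop (𝓝 t) := by
      have := (Real.continuous_exp.tendsto (Real.log t)).comp hs2
      rwa [Real.exp_log ht0] at this
    have h11 : ∀ i, S h (Real.exp (s i)) μ = μ := by
      intro i
      obtain ⟨hs3, hs4⟩ := hs1 i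
      refine hgen _ (Real.exp_pos _) (Real.exp_le_one_iff.2 hs3.le) ?_
      rw [SetLike.mem_coe, AddSubgroup.mem_closure_pair] at hs4
      obtain ⟨a, b, hab⟩ := hs4
      have e0 : Real.exp (s i) = q ^ a * r ^ b := by
        rw [← hab, Real.exp_add, zsmul_eq_mul, zsmul_eq_mul, mul_comm (a : ℝ), mul_comm (b : ℝ),
          Real.exp_mul, Real.exp_mul, Real.exp_log hq0, Real.exp_log hr0, Real.rpow_intCast,
          Real.rpow_intCast]
      rcases Int.eq_nat_or_neg a with ⟨a', rfl | rfl⟩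
      · rcases Int.eq_nat_or_neg b with ⟨b', rfl | rfl⟩
        · -- both nonnegative: the product is at least one
          have h12 : (1 : ℝ) ≤ Real.exp (s i) := by
            rw [e0, zpow_natCast, zpow_natCast]
            exact one_le_mul_of_one_le_of_one_le (one_le_pow₀ hq.le) (one_le_pow₀ hr.le)
          have h13 : Real.exp (s i) < 1 := by simpa using Real.exp_lt_exp.2 hs3
          linarith
        · refine ⟨a', b', Or.inl ?_⟩
          rw [e0, zpow_natCast, zpow_neg, zpow_natCast, inv_pow]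
      · rcases Int.eq_nat_or_neg b with ⟨b', rfl | rfl⟩
        · refine ⟨a', b', Or.inr (Or.inl ?_)⟩
          rw [e0, zpow_natCast, zpow_neg, zpow_natCast, inv_pow]
        · refine ⟨a', b', Or.inr (Or.inr ?_)⟩
          rw [e0, zpow_neg, zpow_natCast, zpow_neg, zpow_natCast, inv_pow, inv_pow]
    have h14 := S_tendsto (h := h) ht0 hexp μ
    simp only [h11] at h14
    exact tendsto_nhds_unique h14 tendsto_const_nhds |>.symm ▸ rfl
  refine tendsto_of_subsingleton H fun ρ hρ => ?_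
  rw [h2] at hρ
  obtain ⟨t, ⟨ht1, ht2⟩, rfl⟩ := hρ
  exact hall t (hqi0.trans_le ht1) ht2

end Zk62.LS
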