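import Pool.Agent.H984R4.NP.Model

/-!
Sets of subsequential limits of laws of rescaled curves: the abstract part.
-/

set_option autoImplicit false

open MeasureTheory Filter Topology

namespace Zk62.LS

/-- Curves on `[0, 1]`. -/
abbrev E := C(unitInterval, ℂ)

/-- The time change `t ↦ l t` (clamped to `[0, 1]`). -/
noncomputable def tc (l : ℝ) : C(unitInterval, unitInterval) where
  toFun t := Set.projIcc 0 1 zero_le_one (l * t)
  continuous_toFun := by fun_prop

theorem tc_cont : Continuous tc := by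
  refine ContinuousMap.continuous_of_continuous_uncurry _ ?_
  show Continuous fun p : ℝ × unitInterval => Set.projIcc 0 1 zero_le_one (p.1 * p.2)
  fun_prop

theorem tc_apply {l : ℝ} (h0 : 0 ≤ l) (h1 : l ≤ 1) (t : unitInterval) :
    ((tc l t : unitInterval) : ℝ) = l * t := by
  show ((Set.projIcc 0 1 zero_le_one (l * t) : unitInterval) : ℝ) = _
  rw [Set.coe_projIcc, max_eq_right, min_eq_right]
  · calc l * (t : ℝ) ≤ 1 * 1 := mul_le_mul h1 t.2.2 t.2.1 zero_le_one
      _ = 1 := one_mul 1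
  · exact le_min zero_le_one (mul_nonneg h0 t.2.1)

/-- `(f, (a, l)) ↦ a f(l ·)`. -/
noncomputable def Phi (p : E × (ℝ × ℝ)) : E := p.2.1 • p.1.comp (tc p.2.2)

theorem Phi_cont : Continuous Phi := by
  unfold Phi
  have h1 : Continuous fun p : E × (ℝ × ℝ) => p.1.comp (tc p.2.2) :=
    Continuous.compCM continuous_fst (tc_cont.comp (continuous_snd.comp continuous_snd))
  exact (continuous_fst.comp continuous_snd).smul h1

/-- The rescaling `(S_l f)(t) = l ^ (-h) f(l t)`. -/
noncomputable def sc (h l : ℝ) (f : E) : E := (l ^ (-h) : ℝ) • f.comp (tc l)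

theorem sc_eq (h l : ℝ) (f : E) : sc h l f = Phi (f, (l ^ (-h), l)) := rfl

theorem sc_cont (h l : ℝ) : Continuous (sc h l) := by
  have : sc h l = fun f => Phi (f, (l ^ (-h), l)) := rfl
  rw [this]
  exact Phi_cont.comp (by fun_prop)

theorem sc_meas (h l : ℝ) : Measurable (sc h l) := (sc_cont h l).measurable

theorem sc_apply {h l : ℝ} (h0 : 0 ≤ l) (h1 : l ≤ 1) (f : E) (t : unitInterval) :
    sc h l f t = ((l ^ (-h) : ℝ) : ℂ) * f ⟨l * t, mul_nonneg h0 t.2.1,
      mul_le_one₀ h1 t.2.1 t.2.2⟩ := by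
  show (l ^ (-h) : ℝ) • f (tc l t) = _
  rw [Complex.real_smul]
  congr 2
  apply Subtype.ext
  exact tc_apply h0 h1 t

theorem sc_comp {h a b : ℝ} (ha : 0 < a) (ha1 : a ≤ 1) (hb : 0 < b) (hb1 : b ≤ 1) (f : E) :
    sc h a (sc h b f) = sc h (a * b) f := by
  apply ContinuousMap.ext
  intro t
  rw [sc_apply ha.le ha1, sc_apply hb.le hb1, sc_apply (mul_pos ha hb).le
    (mul_le_one₀ ha1 hb.le hb1), ← mul_assoc, ← Complex.ofReal_mul, ← Real.mul_rpow ha.le hb.le]
  congr 2
  apply Subtype.ext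
  show b * (a * (t : ℝ)) = a * b * t
  ring

theorem sc_one (h : ℝ) (f : E) : sc h 1 f = f := by
  apply ContinuousMap.ext
  intro t
  rw [sc_apply zero_le_one le_rfl, Real.one_rpow, Complex.ofReal_one, one_mul]
  congr 1
  apply Subtype.ext
  show 1 * (t : ℝ) = t
  ring

/-- The rescaling of laws. -/
noncomputable def S (h l : ℝ) (μ : ProbabilityMeasure E) : ProbabilityMeasure E :=
  μ.map (sc_meas h l).aemeasurable

theorem S_comp {h a b : ℝ} (ha : 0 < a) (ha1 : a ≤ 1) (hb : 0 < b) (hb1 : b ≤ 1)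
    (μ : ProbabilityMeasure E) : S h a (S h b μ) = S h (a * b) μ := by
  apply Subtype.ext
  show Measure.map (sc h a) (Measure.map (sc h b) (μ : Measure E)) = Measure.map (sc h (a * b)) _
  rw [Measure.map_map (sc_meas h a) (sc_meas h b)]
  congr 1
  funext f
  exact sc_comp ha ha1 hb hb1 f

theorem S_one (h : ℝ) (μ : ProbabilityMeasure E) : S h 1 μ = μ := by
  apply Subtype.ext
  show Measure.map (sc h 1) (μ : Measure E) = _
  have : sc h 1 = id := by funext f; exact sc_one h f
  rw [this, Measure.map_id]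
  rfl

/-- A sequence of random curves with approximate scaling. -/
structure Scaling {Ω : Type*} [MeasurableSpace Ω] (P : Measure Ω) [IsProbabilityMeasure P]
    (X : ℕ → Ω → E) (h : ℝ) : Prop where
  hpos : 0 < h
  meas : ∀ n, Measurable (X n)
  tight : ∀ ε : ℝ, 0 < ε → ∃ K : Set E, IsCompact K ∧ ∀ n, P.real {ω | X n ω ∉ K} ≤ ε
  scale : ∃ C : ℝ, ∀ n m : ℕ, 1 ≤ n → 1 ≤ m → ∀ l : ℝ, 0 < l → l ≤ 1 → |l * n - m| ≤ 1 →
    ∀ ω, ‖X m ω - (((n : ℝ) / m) ^ h : ℝ) • (X n ω).comp (tc l)‖ ≤ C * (m : ℝ) ^ (-h)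

section main

variable {Ω : Type*} [MeasurableSpace Ω] {P : Measure Ω} [IsProbabilityMeasure P]
  {X : ℕ → Ω → E} {h : ℝ} (H : Scaling P X h)

/-- The laws. -/
noncomputable def lw (P : Measure Ω) [IsProbabilityMeasure P] {X : ℕ → Ω → E}
    (hX : ∀ n, Measurable (X n)) (n : ℕ) : ProbabilityMeasure E :=
  ⟨P.map (X n), Measure.isProbabilityMeasure_map (hX n).aemeasurable⟩

/-- The set of subsequential limits. -/
def Lims (u : ℕ → ProbabilityMeasure E) : Set (ProbabilityMeasure E) :=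
  {μ | ∃ φ : ℕ → ℕ, Tendsto φ atTop atTop ∧ Tendsto (fun i => u (φ i)) atTop (𝓝 μ)}

theorem tid_iff (hX : ∀ n, Measurable (X n)) (φ : ℕ → ℕ) (μ : ProbabilityMeasure E) :
    TendstoInDistribution (fun i => X (φ i)) atTop (id : E → E) (fun _ => P) (μ : Measure E) ↔
      Tendsto (fun i => lw P hX (φ i)) atTop (𝓝 μ) := by
  have e : (⟨(μ : Measure E).map id, Measure.isProbabilityMeasure_map aemeasurable_id⟩ :
      ProbabilityMeasure E) = μ := by
    apply Subtype.ext
    show Measure.map id (μ : Measure E) = μ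
    rw [Measure.map_id]
  constructor
  · intro hh
    have := hh.tendsto
    rw [e] at this
    exact this
  · intro hh
    refine ⟨fun i => (hX _).aemeasurable, aemeasurable_id, ?_⟩
    rw [e]
    exact hh

include H

theorem tight_set : IsTightMeasureSet
    {((ν : ProbabilityMeasure E) : Measure E) | ν ∈ Set.range (lw P H.meas)} := by
  rw [isTightMeasureSet_iff_exists_isCompact_measure_compl_le]
  intro ε hε
  by_cases htop : ε = ⊤
  · exact ⟨∅, isCompact_empty, fun ν _ => by rw [htop]; exact le_top⟩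
  have hε' : 0 < ε.toReal := ENNReal.toReal_pos hε.ne' htop
  obtain ⟨K, hK, hp⟩ := H.tight ε.toReal hε'
  refine ⟨K, hK, ?_⟩
  rintro ν' ⟨ν'', ⟨n, rfl⟩, rfl⟩
  show P.map (X n) Kᶜ ≤ ε
  rw [Measure.map_apply (H.meas n) hK.isClosed.measurableSet.compl]
  have h1 := hp n
  have h2 : P (X n ⁻¹' Kᶜ) = ENNReal.ofReal (P.real {ω | X n ω ∉ K}) := by
    rw [ofReal_measureReal]
    rfl
  rw [h2, ← ENNReal.ofReal_toReal htop]
  exact ENNReal.ofReal_le_ofReal h1

/-- Compact set containing all laws. -/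
theorem compact_all : IsCompact (closure (Set.range (lw P H.meas))) :=
  isCompact_closure_of_isTightMeasureSet (tight_set H)

theorem subseq (φ : ℕ → ℕ) : ∃ ψ : ℕ → ℕ, StrictMono ψ ∧ ∃ μ : ProbabilityMeasure E,
    Tendsto (fun i => lw P H.meas (φ (ψ i))) atTop (𝓝 μ) := by
  obtain ⟨μ, _, ψ, hψ, hμ⟩ := (compact_all H).tendsto_subseq
    (x := fun i => lw P H.meas (φ i)) (fun i => subset_closure ⟨φ i, rfl⟩)
  exact ⟨ψ, hψ, μ, hμ⟩

/-- The transfer lemma. -/
theorem transfer {n m : ℕ → ℕ} {l : ℕ → ℝ} {l0 : ℝ} {μ : ProbabilityMeasure E}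
    (hn : Tendsto n atTop atTop) (hl0 : 0 < l0) (hl : ∀ i, 0 < l i ∧ l i ≤ 1)
    (hll : Tendsto l atTop (𝓝 l0)) (hm : ∀ i, |l i * n i - m i| ≤ 1)
    (hμ : Tendsto (fun i => lw P H.meas (n i)) atTop (𝓝 μ)) :
    Tendsto (fun i => lw P H.meas (m i)) atTop (𝓝 (S h l0 μ)) := by
  have hnR : Tendsto (fun i => (n i : ℝ)) atTop atTop := tendsto_natCast_atTop_atTop.comp hn
  -- m tends to infinity
  have hln : Tendsto (fun i => l i * n i) atTop atTop := hll.pos_mul_atTop hl0 hnR
  have hmR : Tendsto (fun i => (m i : ℝ)) atTop atTop := by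
    refine tendsto_atTop_mono (f := fun i => l i * n i - 1) (fun i => ?_)
      (tendsto_atTop_add_const_right _ (-1) hln)
    have := (abs_le.1 (hm i)).2
    linarith
  -- ratio
  have hratio : Tendsto (fun i => ((n i : ℝ) / m i)) atTop (𝓝 l0⁻¹) := by
    have h1 : Tendsto (fun i => (m i : ℝ) / n i) atTop (𝓝 l0) := by
      have h2 : Tendsto (fun i => (m i : ℝ) / n i - l i) atTop (𝓝 0) := by
        refine squeeze_zero_norm' (a := fun i => 1 / (n i : ℝ)) ?_ ?_
        · filter_upwards [hnR.eventually_gt_atTop 0] with i hi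
          rw [Real.norm_eq_abs, show (m i : ℝ) / n i - l i = (m i - l i * n i) / n i by
            field_simp, abs_div, abs_of_pos hi]
          gcongr
          rw [abs_sub_comm]
          exact hm i
        · simp only [one_div]
          exact tendsto_inv_atTop_zero.comp hnR
      simpa using h2.add hll
    have h3 := h1.inv₀ hl0.ne'
    refine h3.congr (fun i => ?_)
    rw [inv_div]
  have ha : Tendsto (fun i => (((n i : ℝ) / m i) ^ h)) atTop (𝓝 (l0 ^ (-h))) := by
    have := hratio.rpow_const (p := h) (Or.inl (inv_ne_zero hl0.ne'))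
    rwa [Real.inv_rpow hl0.le, ← Real.rpow_neg hl0.le] at this
  obtain ⟨C, hC⟩ := H.scale
  rw [← tid_iff (P := P) H.meas n μ] at hμ
  -- the main term
  have hY : TendstoInDistribution
      (fun i ω => Phi (X (n i) ω, ((((n i : ℝ) / m i) ^ h), l i))) atTop
      (fun f : E => Phi (id f, (l0 ^ (-h), l0))) (fun _ => P) (μ : Measure E) := by
    refine hμ.continuous_comp_prodMk_of_tendstoInMeasure_const (g := Phi) Phi_cont
      (Y := fun i _ => ((((n i : ℝ) / m i) ^ h), l i)) (c := (l0 ^ (-h), l0)) ?_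
      (fun i => aemeasurable_const)
    have h5 : Tendsto (fun i => ((((n i : ℝ) / m i) ^ h), l i)) atTop (𝓝 (l0 ^ (-h), l0)) :=
      ha.prodMk_nhds hll
    exact tendstoInMeasure_of_tendsto_ae (fun i => aestronglyMeasurable_const)
      (Eventually.of_forall fun _ => h5)
  have hZ : TendstoInDistribution (fun i => X (m i)) atTop
      (fun f : E => Phi (id f, (l0 ^ (-h), l0))) (fun _ => P) (μ : Measure E) := by
    refine tendstoInDistribution_of_tendstoInMeasure_sub _ _ hY ?_
      (fun i => (H.meas _).aemeasurable)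
    rw [tendstoInMeasure_iff_norm]
    intro ε hε
    have h6 : Tendsto (fun i => C * (m i : ℝ) ^ (-h)) atTop (𝓝 0) := by
      have := ((tendsto_rpow_neg_atTop H.hpos).comp hmR).const_mul C
      simpa using this
    refine tendsto_const_nhds.congr' ?_
    filter_upwards [h6.eventually_lt_const hε, hmR.eventually_ge_atTop 1,
      hnR.eventually_ge_atTop 1] with i h7 h8 h9
    have h10 : {x | ε ≤ ‖((fun i => X (m i)) - fun i ω =>
        Phi (X (n i) ω, ((((n i : ℝ) / m i) ^ h), l i))) i x - (0 : Ω → E) x‖} = ∅ := by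
      ext ω
      simp only [Set.mem_ofPred_eq, Set.mem_empty_iff_false, iff_false, not_le]
      have h11 := hC (n i) (m i) (by exact_mod_cast h9) (by exact_mod_cast h8) (l i) (hl i).1
        (hl i).2 (hm i) ω
      refine lt_of_le_of_lt ?_ h7
      simpa [Phi] using h11
    show (0 : ENNReal) = P _
    rw [h10, measure_empty]
  have hT := hZ.tendsto
  have e : (⟨(μ : Measure E).map (fun f : E => Phi (id f, (l0 ^ (-h), l0))),
      Measure.isProbabilityMeasure_map hZ.aemeasurable_limit⟩ : ProbabilityMeasure E) =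
      S h l0 μ := by
    apply Subtype.ext
    rfl
  rw [e] at hT
  exact hT

omit [MeasurableSpace Ω] [IsProbabilityMeasure P] H in
/-- Limits of rescaled limits. -/
theorem S_tendsto {l : ℕ → ℝ} {l0 : ℝ} (hl0 : 0 < l0) (hl : Tendsto l atTop (𝓝 l0))
    (μ : ProbabilityMeasure E) : Tendsto (fun i => S h (l i) μ) atTop (𝓝 (S h l0 μ)) := by
  have h1 : TendstoInDistribution (fun i => sc h (l i)) atTop (sc h l0)
      (fun _ => (μ : Measure E)) (μ : Measure E) := by
    apply tendstoInDistribution_of_ae_tendsto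
    · exact fun i => (sc_meas h (l i)).aemeasurable
    · exact (sc_meas h l0).aemeasurable
    · refine Eventually.of_forall fun f => ?_
      simp only [sc_eq]
      refine (Phi_cont.tendsto (f, (l0 ^ (-h), l0))).comp ?_
      refine tendsto_const_nhds.prodMk_nhds ((hl.rpow_const (Or.inl hl0.ne')).prodMk_nhds hl)
  exact h1.tendsto

theorem lims_nonempty : (Lims (lw P H.meas)).Nonempty := by
  obtain ⟨ψ, hψ, μ, hμ⟩ := subseq H id
  exact ⟨μ, ψ, hψ.tendsto_atTop, hμ⟩

theorem S_mem {μ : ProbabilityMeasure E} (hμ : μ ∈ Lims (lw P H.meas)) {l : ℝ} (h0 : 0 < l)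
    (h1 : l ≤ 1) : S h l μ ∈ Lims (lw P H.meas) := by
  obtain ⟨φ, hφ, hμ⟩ := hμ
  refine ⟨fun i => ⌊l * φ i⌋₊, ?_, ?_⟩
  · have h2 : Tendsto (fun i => l * (φ i : ℝ)) atTop atTop :=
      (tendsto_natCast_atTop_atTop.comp hφ).const_mul_atTop h0
    exact tendsto_nat_floor_atTop.comp h2
  · refine transfer H (n := φ) (l := fun _ => l) hφ h0 (fun _ => ⟨h0, h1⟩) tendsto_const_nhds
      (fun i => ?_) hμ
    have h3 : 0 ≤ l * (φ i : ℝ) := by positivity
    rw [abs_le]
    constructor
    · have := Nat.floor_le h3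
      linarith
    · have := Nat.lt_floor_add_one (l * (φ i : ℝ))
      linarith

theorem S_surj {μ : ProbabilityMeasure E} (hμ : μ ∈ Lims (lw P H.meas)) {l : ℝ} (h0 : 0 < l)
    (h1 : l ≤ 1) : ∃ ν ∈ Lims (lw P H.meas), S h l ν = μ := by
  obtain ⟨φ, hφ, hμ⟩ := hμ
  obtain ⟨ψ, hψ, ν, hν⟩ := subseq H (fun i => ⌈(φ i : ℝ) / l⌉₊)
  have h2 : Tendsto (fun i => ⌈(φ i : ℝ) / l⌉₊) atTop atTop :=
    tendsto_nat_ceil_atTop.comp
      ((tendsto_natCast_atTop_atTop.comp hφ).atTop_div_const h0)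
  refine ⟨ν, ⟨fun i => ⌈(φ (ψ i) : ℝ) / l⌉₊, h2.comp hψ.tendsto_atTop, hν⟩, ?_⟩
  have h3 := transfer H (n := fun i => ⌈(φ (ψ i) : ℝ) / l⌉₊) (m := fun i => φ (ψ i))
    (l := fun _ => l) (h2.comp hψ.tendsto_atTop) h0 (fun _ => ⟨h0, h1⟩) tendsto_const_nhds
    (fun i => ?_) hν
  · exact tendsto_nhds_unique h3 (hμ.comp hψ.tendsto_atTop)
  · have h4 := Nat.le_ceil ((φ (ψ i) : ℝ) / l)
    have h5 := Nat.ceil_lt_add_one (a := (φ (ψ i) : ℝ) / l) (by positivity)
    have h6 : l * ((φ (ψ i) : ℝ) / l) = φ (ψ i) := by field_simp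
    rw [abs_le]
    constructor
    · have := mul_le_mul_of_nonneg_left h4 h0.le
      linarith
    · have := mul_lt_mul_of_pos_left h5 h0
      rw [mul_add, h6] at this
      linarith

/-- Consecutive laws have the same limits. -/
theorem succ_limit {φ : ℕ → ℕ} (hφ : Tendsto φ atTop atTop) {μ : ProbabilityMeasure E}
    (hμ : Tendsto (fun i => lw P H.meas (φ i + 1)) atTop (𝓝 μ)) :
    Tendsto (fun i => lw P H.meas (φ i)) atTop (𝓝 μ) := by
  have hR : Tendsto (fun i => (φ i : ℝ)) atTop atTop := tendsto_natCast_atTop_atTop.comp hφ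
  -- modify the finitely many indices with φ i = 0
  have h1 : Tendsto (fun i => lw P H.meas (max (φ i) 1)) atTop (𝓝 (S h 1 μ)) := by
    refine transfer H (n := fun i => max (φ i) 1 + 1)
      (l := fun i => ((max (φ i) 1 : ℕ) : ℝ) / ((max (φ i) 1 + 1 : ℕ) : ℝ)) ?_ one_pos
      (fun i => ?_) ?_ (fun i => ?_) ?_
    · refine tendsto_atTop_mono (fun i => ?_) hφ
      exact (le_max_left _ _).trans (Nat.le_succ _)
    · constructor
      · have : 0 < max (φ i) 1 := lt_of_lt_of_le one_pos (le_max_right _ _)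
        positivity
      · rw [div_le_one (by positivity)]
        push_cast
        linarith
    · have h2 : Tendsto (fun n : ℕ => ((n : ℝ) / ((n + 1 : ℕ) : ℝ))) atTop (𝓝 1) := by
        have := tendsto_natCast_div_add_atTop (𝕜 := ℝ) 1
        simpa using this
      refine h2.comp ?_
      exact tendsto_atTop_mono (fun i => le_max_left _ _) hφ
    · have h3 : (0 : ℝ) < ((max (φ i) 1 + 1 : ℕ) : ℝ) := by positivity
      rw [div_mul_cancel₀ _ h3.ne', sub_self, abs_zero]
      exact zero_le_one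
    · refine hμ.congr' ?_
      filter_upwards [hφ.eventually_ge_atTop 1] with i hi
      rw [max_eq_left hi]
  rw [S_one] at h1
  refine h1.congr' ?_
  filter_upwards [hφ.eventually_ge_atTop 1] with i hi
  rw [max_eq_left hi]

end main

end Zk62.LS
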