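import Pool.Agent.Zk62.LS.Scales

/-! The law at a random scale, uniform on the logarithmic scale. -/

set_option autoImplicit false

open MeasureTheory Filter Topology

namespace Zk62.LS

/-- The uniform distribution on `(0, 1]`. -/
noncomputable def uni : Measure ℝ := volume.restrict (Set.Ioc (0 : ℝ) 1)

instance : IsProbabilityMeasure uni := ⟨by
  unfold uni
  rw [Measure.restrict_apply MeasurableSet.univ, Set.univ_inter, Real.volume_Ioc]
  simp⟩

/-- The curve at the scale `⌊T ^ u⌋`. -/
noncomputable def Yr {Ω : Type*} (X : ℕ → Ω → E) (T : ℝ) (p : ℝ × Ω) : E :=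
  X ⌊T ^ p.1⌋₊ p.2

theorem Yr_meas {Ω : Type*} [MeasurableSpace Ω] {X : ℕ → Ω → E} (hX : ∀ n, Measurable (X n))
    (T : ℝ) : Measurable (Yr X T) := by
  have h1 : Measurable fun p : ℕ × Ω => X p.1 p.2 := measurable_from_prod_countable_right hX
  have h2 : Measurable fun p : ℝ × Ω => (⌊T ^ p.1⌋₊, p.2) := by
    refine Measurable.prodMk ?_ measurable_snd
    exact Nat.measurable_floor.comp ((measurable_const.pow measurable_fst))
  exact h1.comp h2

/-- The law at the random scale `⌊T ^ U⌋`. -/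
noncomputable def rl {Ω : Type*} [MeasurableSpace Ω] (P : Measure Ω) [IsProbabilityMeasure P]
    {X : ℕ → Ω → E} (hX : ∀ n, Measurable (X n)) (T : ℝ) : ProbabilityMeasure E :=
  ⟨(uni.prod P).map (Yr X T), Measure.isProbabilityMeasure_map (Yr_meas hX T).aemeasurable⟩

variable {Ω : Type*} [MeasurableSpace Ω] {P : Measure Ω} [IsProbabilityMeasure P]
  {X : ℕ → Ω → E} {h : ℝ} (H : Scaling P X h)

/-- Integrals against the random scale law. -/
theorem rl_int (hX : ∀ n, Measurable (X n)) (T : ℝ) (F : BoundedContinuousFunction E ℝ) :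
    ∫ f, F f ∂(rl P hX T : Measure E) =
      ∫ u in (0 : ℝ)..1, ∫ f, F f ∂(lw P hX ⌊T ^ u⌋₊ : Measure E) := by
  have e1 : ∫ f, F f ∂(rl P hX T : Measure E) = ∫ p, F (Yr X T p) ∂(uni.prod P) := by
    show ∫ f, F f ∂((uni.prod P).map (Yr X T)) = _
    rw [integral_map (Yr_meas hX T).aemeasurable F.continuous.aestronglyMeasurable]
  have hint : Integrable (fun p : ℝ × Ω => F (Yr X T p)) (uni.prod P) := by
    refine Integrable.of_bound
      (F.continuous.measurable.comp (Yr_meas hX T)).aestronglyMeasurable ‖F‖ ?_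
    exact Eventually.of_forall fun p => F.norm_coe_le_norm _
  rw [e1, integral_prod _ hint, intervalIntegral.integral_of_le zero_le_one]
  show ∫ u, ∫ ω, F (X ⌊T ^ u⌋₊ ω) ∂P ∂uni = _
  refine integral_congr_ae (Eventually.of_forall fun u => ?_)
  show ∫ ω, F (X ⌊T ^ u⌋₊ ω) ∂P = ∫ f, F f ∂(P.map (X ⌊T ^ u⌋₊))
  rw [integral_map (hX _).aemeasurable F.continuous.aestronglyMeasurable]

/-- Rescaling of a functional. -/
noncomputable def Fs (h l : ℝ) (F : BoundedContinuousFunction E ℝ) :
    BoundedContinuousFunction E ℝ := F.compContinuous ⟨sc h l, sc_cont h l⟩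

theorem Fs_int (h l : ℝ) (F : BoundedContinuousFunction E ℝ) (μ : ProbabilityMeasure E) :
    ∫ f, Fs h l F f ∂(μ : Measure E) = ∫ f, F f ∂(S h l μ : Measure E) := by
  show ∫ f, F (sc h l f) ∂(μ : Measure E) = ∫ f, F f ∂(Measure.map (sc h l) (μ : Measure E))
  rw [integral_map (sc_meas h l).aemeasurable F.continuous.aestronglyMeasurable]

include H

theorem rl_subseq (T : ℕ → ℝ) : ∃ ψ : ℕ → ℕ, StrictMono ψ ∧ ∃ ν : ProbabilityMeasure E,
    Tendsto (fun i => rl P H.meas (T (ψ i))) atTop (𝓝 ν) := by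
  have ht : IsTightMeasureSet
      {((ν : ProbabilityMeasure E) : Measure E) | ν ∈ Set.range (rl P H.meas)} := by
    rw [isTightMeasureSet_iff_exists_isCompact_measure_compl_le]
    intro ε hε
    by_cases htop : ε = ⊤
    · exact ⟨∅, isCompact_empty, fun ν _ => by rw [htop]; exact le_top⟩
    have hε' : 0 < ε.toReal := ENNReal.toReal_pos hε.ne' htop
    obtain ⟨K, hK, hp⟩ := H.tight ε.toReal hε'
    refine ⟨K, hK, ?_⟩
    rintro ν' ⟨ν'', ⟨n, rfl⟩, rfl⟩
    show (uni.prod P).map (Yr X n) Kᶜ ≤ ε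
    have hKm := hK.isClosed.measurableSet.compl
    rw [Measure.map_apply (Yr_meas H.meas n) hKm,
      Measure.prod_apply ((Yr_meas H.meas n) hKm)]
    have h2 : ∀ u : ℝ, P (Prod.mk u ⁻¹' (Yr X n ⁻¹' Kᶜ)) ≤ ε := by
      intro u
      have h3 : P (Prod.mk u ⁻¹' (Yr X n ⁻¹' Kᶜ)) =
          ENNReal.ofReal (P.real {ω | X ⌊n ^ u⌋₊ ω ∉ K}) := by
        rw [ofReal_measureReal]
        rfl
      rw [h3, ← ENNReal.ofReal_toReal htop]
      exact ENNReal.ofReal_le_ofReal (hp _)
    calc ∫⁻ u, P (Prod.mk u ⁻¹' (Yr X n ⁻¹' Kᶜ)) ∂uni ≤ ∫⁻ _, ε ∂uni := lintegral_mono h2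
      _ = ε := by rw [lintegral_const, measure_univ, mul_one]
  have hc := isCompact_closure_of_isTightMeasureSet ht
  obtain ⟨μ, _, ψ, hψ, hμ⟩ := hc.tendsto_subseq
    (x := fun i => rl P H.meas (T i)) (fun i => subset_closure ⟨T i, rfl⟩)
  exact ⟨ψ, hψ, μ, hμ⟩

/-- Rescaled functionals at large scales. -/
theorem claimA {x : ℕ → ℝ} (hx : Tendsto x atTop atTop) {l : ℝ} (h0 : 0 < l) (h1 : l ≤ 1)
    (F : BoundedContinuousFunction E ℝ) :
    Tendsto (fun i => ∫ f, Fs h l F f ∂(lw P H.meas ⌊x i⌋₊ : Measure E) -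
      ∫ f, F f ∂(lw P H.meas ⌊l * x i⌋₊ : Measure E)) atTop (𝓝 0) := by
  refine tendsto_of_subseq_tendsto fun ns hns => ?_
  have hxn : Tendsto (fun i => x (ns i)) atTop atTop := hx.comp hns
  obtain ⟨N, hN⟩ := eventually_atTop.1 (hxn.eventually_ge_atTop 0)
  obtain ⟨ψ, hψ, μ, hμ⟩ := subseq H (fun i => ⌊x (ns (i + N))⌋₊)
  refine ⟨fun i => ψ i + N, ?_⟩
  have h2 : Tendsto (fun i => ψ i + N) atTop atTop :=
    (tendsto_add_atTop_nat N).comp hψ.tendsto_atTop
  have h3 := transfer H (n := fun i => ⌊x (ns (ψ i + N))⌋₊)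
    (m := fun i => ⌊l * x (ns (ψ i + N))⌋₊) (l := fun _ => l)
    (tendsto_nat_floor_atTop.comp (hxn.comp h2)) h0 (fun _ => ⟨h0, h1⟩) tendsto_const_nhds
    (fun i => ?_) hμ
  · have h4 := ((int_cont (Fs h l F)).tendsto μ).comp hμ
    have h5 := ((int_cont F).tendsto (S h l μ)).comp h3
    have h6 := h4.sub h5
    rw [Fs_int, sub_self] at h6
    exact h6
  · have hx0 : 0 ≤ x (ns (ψ i + N)) := hN (ψ i + N) (by omega)
    have a1 := Nat.floor_le hx0
    have a2 := Nat.lt_floor_add_one (x (ns (ψ i + N)))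
    have a3 := Nat.floor_le (mul_nonneg h0.le hx0)
    have a4 := Nat.lt_floor_add_one (l * x (ns (ψ i + N)))
    have b1 := mul_le_mul_of_nonneg_left a1 h0.le
    have b2 := mul_lt_mul_of_pos_left a2 h0
    rw [mul_add, mul_one] at b2
    rw [abs_le]
    constructor <;> linarith

omit H in
theorem G_bound (hX : ∀ n, Measurable (X n)) (F : BoundedContinuousFunction E ℝ) (n : ℕ) :
    |∫ f, F f ∂(lw P hX n : Measure E)| ≤ ‖F‖ := by
  have := norm_integral_le_of_norm_le_const (μ := (lw P hX n : Measure E)) (f := fun f => F f)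
    (C := ‖F‖) (Eventually.of_forall fun f => F.norm_coe_le_norm f)
  simpa using this

omit H in
theorem G_meas (hX : ∀ n, Measurable (X n)) (F : BoundedContinuousFunction E ℝ) {g : ℝ → ℝ}
    (hg : Measurable g) :
    Measurable fun u : ℝ => ∫ f, F f ∂(lw P hX ⌊g u⌋₊ : Measure E) := by
  have h1 : Measurable fun n : ℕ => ∫ f, F f ∂(lw P hX n : Measure E) := measurable_from_nat
  exact h1.comp (Nat.measurable_floor.comp hg)

/-- Limits at random scales are exactly self-similar. -/
theorem rl_selfsimilar {T : ℕ → ℝ} (hT : Tendsto T atTop atTop) {ν : ProbabilityMeasure E}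
    (hν : Tendsto (fun i => rl P H.meas (T i)) atTop (𝓝 ν)) {l : ℝ} (h0 : 0 < l) (h1 : l ≤ 1) :
    S h l ν = ν := by
  refine law_ext fun F => ?_
  rw [← Fs_int]
  have t1 := ((int_cont (Fs h l F)).tendsto ν).comp hν
  have t2 := ((int_cont F).tendsto ν).comp hν
  -- the difference of the two integrals tends to zero
  set G : ℕ → ℝ := fun n => ∫ f, F f ∂(lw P H.meas n : Measure E) with hG
  set Gl : ℕ → ℝ := fun n => ∫ f, Fs h l F f ∂(lw P H.meas n : Measure E) with hGl
  have hmeasT : ∀ c d : ℝ, Measurable fun u : ℝ => c * d ^ u := fun c d =>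
    (measurable_const.pow measurable_id).const_mul c
  -- first difference
  have d1 : Tendsto (fun i => ∫ u in (0 : ℝ)..1, (Gl ⌊T i ^ u⌋₊ - G ⌊l * T i ^ u⌋₊)) atTop
      (𝓝 0) := by
    have := intervalIntegral.tendsto_integral_filter_of_dominated_convergence
      (μ := volume) (a := 0) (b := 1) (l := atTop)
      (F := fun i u => Gl ⌊T i ^ u⌋₊ - G ⌊l * T i ^ u⌋₊) (f := fun _ => (0 : ℝ))
      (fun _ => ‖Fs h l F‖ + ‖F‖) ?_ ?_ ?_ ?_
    · simpa using this
    · refine Eventually.of_forall fun i => ?_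
      refine Measurable.aestronglyMeasurable ?_
      refine Measurable.sub ?_ ?_
      · exact G_meas H.meas (Fs h l F) (by simpa using hmeasT 1 (T i))
      · exact G_meas H.meas F (hmeasT l (T i))
    · refine Eventually.of_forall fun i => Eventually.of_forall fun u _ => ?_
      refine (norm_sub_le _ _).trans (add_le_add ?_ ?_)
      · exact G_bound H.meas (Fs h l F) _
      · exact G_bound H.meas F _
    · exact intervalIntegrable_const
    · refine Eventually.of_forall fun u hu => ?_
      rw [Set.uIoc_of_le zero_le_one] at hu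
      have hTu : Tendsto (fun i => T i ^ u) atTop atTop := (tendsto_rpow_atTop hu.1).comp hT
      exact claimA H hTu h0 h1 F
  -- second difference
  have d2 : Tendsto (fun i => (∫ u in (0 : ℝ)..1, G ⌊l * T i ^ u⌋₊) -
      ∫ u in (0 : ℝ)..1, G ⌊T i ^ u⌋₊) atTop (𝓝 0) := by
    have hη : Tendsto (fun i => -Real.log l / Real.log (T i)) atTop (𝓝 0) :=
      Tendsto.div_atTop tendsto_const_nhds (Real.tendsto_log_atTop.comp hT)
    refine squeeze_zero_norm' (a := fun i => 2 * ‖F‖ * (-Real.log l / Real.log (T i))) ?_ ?_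
    · filter_upwards [hT.eventually_gt_atTop 1] with i hi
      have hT0 : 0 < T i := one_pos.trans hi
      have hlog : 0 < Real.log (T i) := Real.log_pos hi
      set η := -Real.log l / Real.log (T i) with hη'
      have hη0 : 0 ≤ η := div_nonneg (neg_nonneg.2 (Real.log_nonpos h0.le h1)) hlog.le
      set g : ℝ → ℝ := fun v => G ⌊T i ^ v⌋₊ with hg
      have hgm : Measurable g := G_meas H.meas F (by simpa using hmeasT 1 (T i))
      have hgb : ∀ v, |g v| ≤ ‖F‖ := fun v => G_bound H.meas F _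
      have hgi : ∀ a b : ℝ, IntervalIntegrable g volume a b := by
        intro a b
        refine IntervalIntegrable.mono_fun (g := g) (f := fun _ => ‖F‖) intervalIntegrable_const
          hgm.aestronglyMeasurable (Eventually.of_forall fun v => ?_)
        show |g v| ≤ |‖F‖|
        rw [abs_of_nonneg (norm_nonneg F)]
        exact hgb v
      have e2 : ∀ u : ℝ, l * T i ^ u = T i ^ (u - η) := by
        intro u
        rw [Real.rpow_sub hT0, div_eq_mul_inv, mul_comm, ← Real.rpow_neg hT0.le]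
        congr 1
        rw [Real.rpow_def_of_pos hT0, hη', neg_div, neg_neg, mul_div_assoc', mul_comm,
          mul_div_assoc, div_self hlog.ne', mul_one, Real.exp_log h0]
      have e3 : ∫ u in (0 : ℝ)..1, G ⌊l * T i ^ u⌋₊ = ∫ u in (0 - η)..(1 - η), g u := by
        rw [← intervalIntegral.integral_comp_sub_right (f := g) η]
        refine intervalIntegral.integral_congr fun u _ => ?_
        show G _ = G _
        rw [e2]
      rw [e3]
      have e4 : (∫ u in (0 - η)..(1 - η), g u) - ∫ u in (0 : ℝ)..1, g u =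
          (∫ u in (0 - η)..0, g u) - ∫ u in (1 - η)..1, g u := by
        have a1 := intervalIntegral.integral_add_adjacent_intervals (hgi (0 - η) 0) (hgi 0 1)
        have a2 := intervalIntegral.integral_add_adjacent_intervals (hgi (0 - η) (1 - η))
          (hgi (1 - η) 1)
        linarith
      rw [e4]
      have b1 := intervalIntegral.norm_integral_le_of_norm_le_const (a := 0 - η) (b := 0)
        (f := g) (C := ‖F‖) (fun v _ => hgb v)
      have b2 := intervalIntegral.norm_integral_le_of_norm_le_const (a := 1 - η) (b := 1)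
        (f := g) (C := ‖F‖) (fun v _ => hgb v)
      have c1 : |0 - (0 - η)| = η := by rw [show 0 - (0 - η) = η by ring]; exact abs_of_nonneg hη0
      have c2 : |1 - (1 - η)| = η := by rw [show 1 - (1 - η) = η by ring]; exact abs_of_nonneg hη0
      rw [c1] at b1
      rw [c2] at b2
      refine (norm_sub_le _ _).trans ?_
      linarith
    · simpa using hη.const_mul (2 * ‖F‖)
  have hGi : ∀ i (c : ℝ) , IntervalIntegrable (fun u : ℝ => G ⌊c * T i ^ u⌋₊) volume 0 1 := by
    intro i c
    refine IntervalIntegrable.mono_fun (f := fun _ => ‖F‖) intervalIntegrable_const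
      (G_meas H.meas F (hmeasT c (T i))).aestronglyMeasurable (Eventually.of_forall fun v => ?_)
    show |G ⌊c * T i ^ v⌋₊| ≤ |‖F‖|
    rw [abs_of_nonneg (norm_nonneg F)]
    exact G_bound H.meas F _
  have hGli : ∀ i, IntervalIntegrable (fun u : ℝ => Gl ⌊T i ^ u⌋₊) volume 0 1 := by
    intro i
    refine IntervalIntegrable.mono_fun (f := fun _ => ‖Fs h l F‖) intervalIntegrable_const
      (G_meas H.meas (Fs h l F)
        (by simpa using hmeasT 1 (T i))).aestronglyMeasurable (Eventually.of_forall fun v => ?_)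
    show |Gl ⌊T i ^ v⌋₊| ≤ |‖Fs h l F‖|
    rw [abs_of_nonneg (norm_nonneg _)]
    exact G_bound H.meas (Fs h l F) _
  have t3 : Tendsto (fun i => (∫ f, Fs h l F f ∂(rl P H.meas (T i) : Measure E)) -
      ∫ f, F f ∂(rl P H.meas (T i) : Measure E)) atTop (𝓝 0) := by
    have := d1.add d2
    rw [add_zero] at this
    refine this.congr fun i => ?_
    rw [rl_int, rl_int, intervalIntegral.integral_sub (hGli i) (hGi i l)]
    ring
  have t4 := t1.sub t2
  have t5 := tendsto_nhds_unique t4 t3
  linarith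

end Zk62.LS
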