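import Pool.Agent.H984R4.HN.NoZero
import Pool.Agent.H984R3.Per.UpPi
import Pool.Agent.H984R3.Per.LowEV
import Pool.Agent.H985R3.TA.Main
import Pool.Agent.H985R3.TA.STA
import Pool.Agent.Zk62.LS.Random

/-! The exploration path of critical percolation in the half-plane has the scaling property. -/

set_option autoImplicit false

open MeasureTheory Filter Topology H984H

namespace Zk62.LS

theorem clamp_sum (N : ℕ) {x : ℝ} (hx : 0 ≤ x) :
    ∑ k ∈ Finset.range N, H984N.clamp (x - k) = min x N := by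
  induction N with
  | zero => simp [hx]
  | succ N ih =>
    rw [Finset.sum_range_succ, ih]
    unfold H984N.clamp
    push_cast
    rcases le_total x N with h1 | h1
    · rw [min_eq_left h1, min_eq_left (by linarith : x ≤ (N : ℝ) + 1),
        min_eq_right (by linarith : x - (N : ℝ) ≤ 1), max_eq_left (by linarith), add_zero]
    · rw [min_eq_right h1]
      rcases le_total x (N + 1) with h2 | h2
      · rw [min_eq_left h2, min_eq_right (by linarith : x - (N : ℝ) ≤ 1),
          max_eq_right (by linarith)]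
        ring
      · rw [min_eq_right h2, min_eq_left (by linarith : (1 : ℝ) ≤ x - (N : ℝ)),
          max_eq_right (by norm_num)]

theorem clamp_mono {a b : ℝ} (h : a ≤ b) : H984N.clamp a ≤ H984N.clamp b := by
  unfold H984N.clamp
  exact max_le_max le_rfl (min_le_min le_rfl h)

theorem clamp_lip (N : ℕ) {x y : ℝ} (hx : 0 ≤ x) (hy : 0 ≤ y) :
    ∑ k ∈ Finset.range N, |H984N.clamp (x - k) - H984N.clamp (y - k)| ≤ |x - y| := by
  wlog h : y ≤ x generalizing x y
  · have h1 := this hy hx (not_le.1 h).le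
    rw [abs_sub_comm]
    refine le_trans (le_of_eq ?_) h1
    refine Finset.sum_congr rfl fun k _ => abs_sub_comm _ _
  have e : ∑ k ∈ Finset.range N, |H984N.clamp (x - k) - H984N.clamp (y - k)| =
      ∑ k ∈ Finset.range N, (H984N.clamp (x - k) - H984N.clamp (y - k)) := by
    refine Finset.sum_congr rfl fun k _ => abs_of_nonneg ?_
    have := clamp_mono (show y - (k : ℝ) ≤ x - k by linarith)
    linarith
  rw [e, Finset.sum_sub_distrib, clamp_sum N hx, clamp_sum N hy, abs_of_nonneg (by linarith)]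
  rcases le_total x N with h1 | h1
  · rw [min_eq_left h1, min_eq_left (h.trans h1)]
  · rw [min_eq_right h1]
    rcases le_total y N with h2 | h2
    · rw [min_eq_left h2]; linarith
    · rw [min_eq_right h2]; linarith

theorem gam_step' (ω : Conf) (k : ℕ) : ‖gam ω (k + 1) - gam ω k‖ ≤ 1 := by
  have h := gam_step ω k
  rw [dist_comm, dist_eq_norm] at h
  linarith

/-- The curves as sums over many steps. -/
theorem curve_big (n N : ℕ) (hN : n ≤ N) (ω : Conf) (s : unitInterval) :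
    curve n ω s = (((n : ℝ) ^ (-(4/7) : ℝ) : ℝ) : ℂ) * (gam ω 0 + ∑ k ∈ Finset.range N,
      ((H984N.clamp ((s : ℝ) * n - k) : ℝ) : ℂ) * (gam ω (k + 1) - gam ω k)) := by
  unfold curve
  rw [H984N.pl_apply', mul_add, Finset.mul_sum]
  congr 1
  obtain ⟨r, rfl⟩ := Nat.exists_eq_add_of_le hN
  rw [Finset.sum_range_add]
  have h2 : ∑ x ∈ Finset.range r, (((n : ℝ) ^ (-(4/7) : ℝ) : ℝ) : ℂ) *
      (((H984N.clamp ((s : ℝ) * n - ((n + x : ℕ) : ℝ)) : ℝ) : ℂ) *
        (gam ω (n + x + 1) - gam ω (n + x))) = 0 := by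
    refine Finset.sum_eq_zero fun x _ => ?_
    have h3 : H984N.clamp ((s : ℝ) * n - ((n + x : ℕ) : ℝ)) = 0 := by
      apply H984N.pl_clamp_zero
      push_cast
      have h4 : (s : ℝ) * n ≤ 1 * n := mul_le_mul_of_nonneg_right s.2.2 (Nat.cast_nonneg n)
      have h5 : (0 : ℝ) ≤ x := Nat.cast_nonneg x
      linarith
    rw [h3]
    simp
  rw [h2, add_zero]
  refine Finset.sum_congr rfl fun k _ => ?_
  ring

theorem curve_scale (n m : ℕ) (hn : 1 ≤ n) (hm : 1 ≤ m) (l : ℝ) (h0 : 0 < l) (h1 : l ≤ 1)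
    (hl : |l * n - m| ≤ 1) (ω : Conf) :
    ‖curve m ω - (((n : ℝ) / m) ^ (4/7 : ℝ) : ℝ) • (curve n ω).comp (tc l)‖ ≤
      1 * (m : ℝ) ^ (-(4/7 : ℝ)) := by
  have hn0 : (0 : ℝ) < n := by exact_mod_cast hn
  have hm0 : (0 : ℝ) < m := by exact_mod_cast hm
  rw [ContinuousMap.norm_le _ (by positivity)]
  intro t
  have e1 := curve_big m (max n m) (le_max_right _ _) ω t
  have e2 := curve_big n (max n m) (le_max_left _ _) ω (tc l t)
  have e3 : (((n : ℝ) / m) ^ (4/7 : ℝ)) * (n : ℝ) ^ (-(4/7) : ℝ) = (m : ℝ) ^ (-(4/7) : ℝ) := by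
    rw [Real.div_rpow hn0.le hm0.le, Real.rpow_neg hn0.le, Real.rpow_neg hm0.le]
    field_simp
  have ht := tc_apply h0.le h1 t
  have key : (curve m ω - (((n : ℝ) / m) ^ (4/7 : ℝ) : ℝ) • (curve n ω).comp (tc l)) t =
      (((m : ℝ) ^ (-(4/7) : ℝ) : ℝ) : ℂ) * ∑ k ∈ Finset.range (max n m),
        (((H984N.clamp ((t : ℝ) * m - k) - H984N.clamp (l * t * n - k) : ℝ)) : ℂ) *
          (gam ω (k + 1) - gam ω k) := by
    show curve m ω t - (((n : ℝ) / m) ^ (4/7 : ℝ) : ℝ) • (curve n ω (tc l t)) = _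
    rw [e1, e2, Complex.real_smul, ← mul_assoc, ← Complex.ofReal_mul, e3, ← mul_sub,
      add_sub_add_left_eq_sub, ← Finset.sum_sub_distrib, ht]
    congr 1
    refine Finset.sum_congr rfl fun k _ => ?_
    push_cast
    ring
  rw [key, norm_mul, Complex.norm_real, Real.norm_eq_abs, abs_of_nonneg (by positivity), one_mul]
  have hs : ‖∑ k ∈ Finset.range (max n m),
        (((H984N.clamp ((t : ℝ) * m - k) - H984N.clamp (l * t * n - k) : ℝ)) : ℂ) *
          (gam ω (k + 1) - gam ω k)‖ ≤ 1 := by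
    refine (norm_sum_le _ _).trans ?_
    calc ∑ k ∈ Finset.range (max n m),
          ‖(((H984N.clamp ((t : ℝ) * m - k) - H984N.clamp (l * t * n - k) : ℝ)) : ℂ) *
            (gam ω (k + 1) - gam ω k)‖
        ≤ ∑ k ∈ Finset.range (max n m),
          |H984N.clamp ((t : ℝ) * m - k) - H984N.clamp (l * t * n - k)| := by
          refine Finset.sum_le_sum fun k _ => ?_
          rw [norm_mul, Complex.norm_real, Real.norm_eq_abs]
          exact mul_le_of_le_one_right (abs_nonneg _) (gam_step' ω k)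
      _ ≤ |(t : ℝ) * m - l * t * n| :=
          clamp_lip _ (mul_nonneg t.2.1 hm0.le) (by have := t.2.1; positivity)
      _ = (t : ℝ) * |l * n - m| := by
          rw [show (t : ℝ) * m - l * t * n = -(t * (l * n - m)) by ring, abs_neg, abs_mul,
            abs_of_nonneg t.2.1]
      _ ≤ 1 * 1 := mul_le_mul t.2.2 hl (abs_nonneg _) zero_le_one
      _ = 1 := one_mul 1
  exact mul_le_of_le_one_right (by positivity) hs

/-- The two-arm bounds in the form used below. -/
theorem inputs : (∃ c : ℝ, 0 < c ∧ H984P.LowA c (1/4)) ∧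
    (∃ C : ℝ, 0 < C ∧ H342P.TwoUp C (1/4)) ∧ (∃ C : ℝ, 0 < C ∧ AnnUp C) := by
  refine ⟨?_, ?_, ?_⟩
  · obtain ⟨B, m0, κ, hκ, h⟩ := H985T.EV_lower
    obtain ⟨c, hc, h2⟩ := H984P.lowA_of_EV (B := B) (m0 := m0) (s := 1/4) hκ (by norm_num)
      (fun m hm => by
        obtain ⟨ρ, c, s, c', f0, h1, h2, h3⟩ := h m hm
        exact ⟨ρ, c, s, c', f0, h2, h1, h3⟩)
    exact ⟨c, hc, h2⟩
  · obtain ⟨C, hC, h⟩ := H985T.pi2_upper
    exact ⟨C, hC, H984P.twoUp_of_pi2 hC (by norm_num) h⟩
  · obtain ⟨C, hC, h⟩ := H985T.st_A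
    exact ⟨C, hC, fun r R hr hR c1 c2 S => h r R hr hR c1 c2 S⟩

theorem scaling : Scaling perc curve (4/7) where
  hpos := by norm_num
  meas := curve_meas
  tight := by
    intro ε hε
    obtain ⟨⟨c, hc, hL⟩, ⟨C, hC, hU⟩, -⟩ := inputs
    obtain ⟨Λ, hΛ, h⟩ := tight_curve hc hC hL hU (β := 1/4) (by norm_num) (by norm_num) hε
    refine ⟨GoodC (1/4) Λ, goodC_compact (by norm_num) hΛ, fun n => ?_⟩
    rcases Nat.eq_zero_or_pos n with rfl | hn
    · have : {ω : Conf | curve 0 ω ∉ GoodC (1/4) Λ} = ∅ := by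
        ext ω
        simp only [Set.mem_ofPred_eq, Set.mem_empty_iff_false, iff_false, not_not]
        exact goodC_zero hΛ ω
      rw [this]
      simpa using hε.le
    · exact h n hn
  scale := ⟨1, fun n m hn hm l h0 h1 hl ω => curve_scale n m hn hm l h0 h1 hl ω⟩

theorem lw_eq (n : ℕ) : lw perc curve_meas n = lawH n := rfl

end Zk62.LS
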